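import Pool.Agent.J6H24.EQ.Stm

/-!
# Products of functions of the coordinates are dense
-/

set_option autoImplicit false
set_option linter.unusedSectionVars false

namespace Pool.Agent.J6H24.EQ

open MeasureTheory

variable {J : Type} [Fintype J] [DecidableEq J] {Y : J → Type} [∀ j, TopologicalSpace (Y j)]

/-- the products of continuous functions with compact support of the coordinates -/
def Prods (Y : J → Type) [∀ j, TopologicalSpace (Y j)] : Set ((∀ j, Y j) → ℝ) :=
  {h | ∃ φ : ∀ j, Y j → ℝ, (∀ j, Continuous (φ j) ∧ HasCompactSupport (φ j)) ∧ h = fun y => ∏ j, φ j (y j)}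

theorem prods_mul {s : (∀ j, Y j) → ℝ} (hs : s ∈ Submodule.span ℝ (Prods Y)) (k : J) (ψ : C(Y k, ℝ)) :
    (fun y => ψ (y k) * s y) ∈ Submodule.span ℝ (Prods Y) := by
  induction hs using Submodule.span_induction with
  | mem s hs =>
    obtain ⟨φ, hφ, rfl⟩ := hs
    refine Submodule.subset_span ⟨Function.update φ k fun t => ψ t * φ k t, ?_, ?_⟩
    · intro j
      by_cases hj : j = k
      · subst hj
        rw [Function.update_self]
        exact ⟨ψ.continuous.mul (hφ j).1, (hφ j).2.mul_left⟩
      · rw [Function.update_of_ne hj]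
        exact hφ j
    · funext y
      show ψ (y k) * ∏ j, φ j (y j) = ∏ j, Function.update φ k (fun t => ψ t * φ k t) j (y j)
      rw [← Finset.mul_prod_erase Finset.univ (fun j => φ j (y j)) (Finset.mem_univ k),
        ← Finset.mul_prod_erase Finset.univ _ (Finset.mem_univ k), Function.update_self, mul_assoc]
      congr 2
      refine Finset.prod_congr rfl fun j hj => ?_
      rw [Function.update_of_ne (Finset.ne_of_mem_erase hj)]
  | zero =>
    have : (fun y : ∀ j, Y j => ψ (y k) * (0 : (∀ j, Y j) → ℝ) y) = 0 := by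
      funext y; simp
    rw [this]
    exact Submodule.zero_mem _
  | add s t _ _ h1 h2 =>
    have : (fun y : ∀ j, Y j => ψ (y k) * (s + t) y) = (fun y => ψ (y k) * s y) + fun y => ψ (y k) * t y := by
      funext y; simp [mul_add]
    rw [this]
    exact Submodule.add_mem _ h1 h2
  | smul c s _ h1 =>
    have : (fun y : ∀ j, Y j => ψ (y k) * (c • s) y) = c • fun y => ψ (y k) * s y := by
      funext y; simp; ring
    rw [this]
    exact Submodule.smul_mem _ _ h1

/-- the algebra of the functions of the coordinates -/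
def Alg (Y : J → Type) [∀ j, TopologicalSpace (Y j)] : Subalgebra ℝ C(∀ j, Y j, ℝ) :=
  Algebra.adjoin ℝ {g | ∃ (k : J) (ψ : C(Y k, ℝ)), g = ψ.comp ⟨fun y => y k, continuous_apply k⟩}

theorem alg_mul {g : C(∀ j, Y j, ℝ)} (hg : g ∈ Alg Y) :
    ∀ s ∈ Submodule.span ℝ (Prods Y), (fun y => g y * s y) ∈ Submodule.span ℝ (Prods Y) := by
  induction hg using Algebra.adjoin_induction with
  | mem g hg =>
    obtain ⟨k, ψ, rfl⟩ := hg
    intro s hs
    exact prods_mul hs k ψ
  | algebraMap r =>
    intro s hs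
    exact Submodule.smul_mem _ r hs
  | add g h _ _ h1 h2 =>
    intro s hs
    have : (fun y => (g + h) y * s y) = (fun y => g y * s y) + fun y => h y * s y := by
      funext y; simp [add_mul]
    rw [this]
    exact Submodule.add_mem _ (h1 s hs) (h2 s hs)
  | mul g h _ _ h1 h2 =>
    intro s hs
    have : (fun y => (g * h) y * s y) = fun y => g y * (h y * s y) := by
      funext y; simp [mul_assoc]
    rw [this]
    exact h1 _ (h2 s hs)

theorem alg_sep [∀ j, LocallyCompactSpace (Y j)] [∀ j, T2Space (Y j)] : (Alg Y).SeparatesPoints := by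
  intro x y hxy
  obtain ⟨k, hk⟩ := Function.ne_iff.1 hxy
  obtain ⟨ψ, h1, h2, _, _⟩ := exists_continuous_one_zero_of_isCompact (X := Y k) (s := {x k}) (t := {y k})
    isCompact_singleton isClosed_singleton (Set.disjoint_singleton.2 hk)
  refine ⟨_, ⟨ψ.comp ⟨fun y => y k, continuous_apply k⟩, Algebra.subset_adjoin ⟨k, ψ, rfl⟩, rfl⟩, ?_⟩
  have e1 : ψ (x k) = 1 := h1 rfl
  have e2 : ψ (y k) = 0 := h2 rfl
  show ψ (x k) ≠ ψ (y k)
  rw [e1, e2]
  norm_num

theorem dense_prods [∀ j, LocallyCompactSpace (Y j)] [∀ j, T2Space (Y j)] {f : (∀ j, Y j) → ℝ}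
    (hf : Continuous f) (hc : HasCompactSupport f) {ε : ℝ} (hε : 0 < ε) :
    ∃ h ∈ Submodule.span ℝ (Prods Y), ∀ y, |f y - h y| ≤ ε := by
  classical
  have hC : ∀ j, IsCompact ((fun y : ∀ j, Y j => y j) '' tsupport f) := fun j => hc.isCompact.image (continuous_apply j)
  have hχ := fun j => exists_continuous_one_zero_of_isCompact (hC j) isClosed_empty (Set.disjoint_empty _)
  choose χ h1 _ h3 h4 using hχ
  set K : Set (∀ j, Y j) := Set.pi Set.univ fun j => tsupport (χ j) with hK
  have hKc : IsCompact K := isCompact_univ_pi fun j => (h3 j).isCompact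
  obtain ⟨g, hg, hg2⟩ := ContinuousMap.exists_mem_subalgebra_near_continuous_of_isCompact_of_separatesPoints
    (alg_sep (Y := Y)) ⟨f, hf⟩ hKc hε
  refine ⟨fun y => g y * ∏ j, χ j (y j), alg_mul hg _ (Submodule.subset_span
    ⟨fun j => χ j, fun j => ⟨(χ j).continuous, h3 j⟩, rfl⟩), fun y => ?_⟩
  have hy : f y ≠ 0 → ∀ j, χ j (y j) = 1 := by
    intro h0 j
    exact h1 j ⟨y, subset_tsupport f h0, rfl⟩
  by_cases hyK : y ∈ K
  · have e1 : f y = f y * ∏ j, χ j (y j) := by
      by_cases h0 : f y = 0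
      · rw [h0, zero_mul]
      · rw [Finset.prod_eq_one fun j _ => hy h0 j, mul_one]
    have e2 : f y - g y * ∏ j, χ j (y j) = (f y - g y) * ∏ j, χ j (y j) := by
      rw [sub_mul, ← e1]
    show |f y - g y * ∏ j, χ j (y j)| ≤ ε
    rw [e2, abs_mul]
    have e3 : |∏ j, χ j (y j)| ≤ 1 := by
      rw [abs_of_nonneg (Finset.prod_nonneg fun j _ => (h4 j _).1)]
      exact Finset.prod_le_one (fun j _ => (h4 j _).1) fun j _ => (h4 j _).2
    have e4 : |f y - g y| ≤ ε := by
      have := hg2 y hyK
      rw [Real.norm_eq_abs, abs_sub_comm] at this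
      exact this.le
    calc |f y - g y| * |∏ j, χ j (y j)| ≤ ε * 1 := mul_le_mul e4 e3 (abs_nonneg _) hε.le
      _ = ε := mul_one _
  · have h0 : f y = 0 := by
      by_contra h0
      refine hyK fun j _ => subset_tsupport _ ?_
      rw [Function.mem_support, hy h0 j]
      norm_num
    have : ∃ j, y j ∉ tsupport (χ j) := by
      by_contra hc'
      push Not at hc'
      exact hyK fun j _ => hc' j
    obtain ⟨j, hj⟩ := this
    have e1 : ∏ j, χ j (y j) = 0 := Finset.prod_eq_zero (Finset.mem_univ j) (image_eq_zero_of_notMem_tsupport hj)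
    show |f y - g y * ∏ j, χ j (y j)| ≤ ε
    rw [h0, e1, mul_zero, sub_zero, abs_zero]
    exact hε.le

end Pool.Agent.J6H24.EQ
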