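import Pool.Agent.J6H24.EQ.Sec
import Pool.Agent.J6H24.EQ.SW

/-!
# Almost all points of a product of orbits
-/

set_option autoImplicit false
set_option linter.unusedSectionVars false

namespace Pool.Agent.J6H24.EQ

open MulAction MeasureTheory Filter Topology

variable {Γ : Type} [Group Γ]

/-- The CM points `P` of a modular curve `Y` with the invariant probability measure `m`: `pt` is the
point of `Y`, `K y` the group of the CM field, `H y` the group of the field of definition over the CM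
field (the ray class field of the CM order for the level), `D y` the absolute value of the discriminant
of the CM order. `weyl` is the estimate of the Weyl sums: for all subgroups `V` of bounded index of the
group of the base field, which are trivial on the CM field, the orbits are equidistributed, and the
mean over the orbit of a function multiplied by a nonconstant eigenfunction of `V` (a character of the
class group) is small. -/
structure Packets (F : Subgroup Γ) {P Y : Type} [MulAction F P] [TopologicalSpace Y] [MeasurableSpace Y]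
    (pt : P → Y) (K H : P → Subgroup Γ) (D : P → ℕ) (m : Measure Y) : Prop where
  two : ∀ y, (K y).index = 2
  finite : ∀ y, (H y).index ≠ 0
  abelian : ∀ y, ∀ a ∈ K y, ∀ c ∈ K y, a * c * a⁻¹ * c⁻¹ ∈ H y
  conj : ∀ (g : F) (y : P), K (g • y) = K y ∧ H (g • y) = H y ∧ D (g • y) = D y
  fixed : ∀ (y : P) (g : F), (g : Γ) ∈ H y → g • y = y
  weyl : ∀ φ : Y → ℝ, Continuous φ → HasCompactSupport φ → ∀ ε : ℝ, 0 < ε → ∀ B : ℕ, ∃ D₀ : ℕ, ∀ y,
    D₀ ≤ D y → ∀ V : Subgroup F, V ≤ (K y).subgroupOf F → V.index ≠ 0 → V.index ≤ B →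
      |mean V y (fun z => φ (pt z)) - ∫ t, φ t ∂m| ≤ ε ∧
      ∀ ψ : P → ℂ, IsEigen V y ψ → (∃ z ∈ orbit V y, ψ z ≠ ψ y) → ‖weylSum V y ψ (fun z => φ (pt z))‖ ≤ ε

/-- The product of the orbits of the points `x j`. -/
def box (F : Subgroup Γ) {J : Type} {P : J → Type} [∀ j, MulAction F (P j)] (x : ∀ j, P j) :
    Set (∀ j, P j) := {y | ∀ j, y j ∈ orbit F (x j)}

theorem orbit_fin {F : Subgroup Γ} {P : Type} [MulAction F P] {H : P → Subgroup Γ} {y : P}
    (h : (H y).index ≠ 0) (hf : ∀ g : F, (g : Γ) ∈ H y → g • y = y) : (orbit F y).Finite := by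
  have h1 : (H y).subgroupOf F ≤ stabilizer F y := fun g hg => hf g hg
  have h2 : ((H y).subgroupOf F).index ≠ 0 := fun hh => h (Subgroup.index_eq_zero_of_relIndex_eq_zero hh)
  have h3 : (stabilizer F y).index ≠ 0 := by
    intro h0
    have := Subgroup.index_dvd_of_le h1
    rw [h0] at this
    exact h2 (Nat.eq_zero_of_zero_dvd this)
  rw [MulAction.index_stabilizer] at h3
  exact Set.finite_of_ncard_ne_zero h3

theorem weylSum_sub {G : Type} [Group G] {P : Type} [MulAction G P] {y : P} (h : (orbit G y).Finite)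
    {ψ : P → ℂ} (hψ : IsEigen G y ψ) (φ : P → ℝ) (c : ℝ) {ε : ℝ} (h1 : |mean G y φ - c| ≤ ε)
    (h2 : (∃ z ∈ orbit G y, ψ z ≠ ψ y) → ‖weylSum G y ψ φ‖ ≤ ε) :
    ‖weylSum G y ψ (fun z => φ z - c)‖ ≤ ε := by
  classical
  have e : ∀ f : P → ℝ, weylSum G y ψ f = (∑ z ∈ h.toFinset, ψ z * f z) / h.toFinset.card := by
    intro f
    rw [weylSum, finsum_mem_eq_finite_toFinset_sum _ h, Set.ncard_eq_toFinset_card _ h]
  by_cases hc : ∃ z ∈ orbit G y, ψ z ≠ ψ y
  · have h3 := h2 hc
    obtain ⟨_, ⟨v, rfl⟩, hz⟩ := hc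
    obtain ⟨d, hd⟩ := hψ.2 v
    have hd1 : d ≠ 1 := by
      rintro rfl
      refine hz ?_
      show ψ (v • y) = ψ y
      rw [hd y (mem_orbit_self y), one_mul]
    have e1 : ∑ z ∈ h.toFinset, ψ z = d * ∑ z ∈ h.toFinset, ψ z := by
      rw [Finset.mul_sum]
      refine (Finset.sum_bij (fun z _ => v⁻¹ • z) ?_ ?_ ?_ ?_)
      · intro z hz
        rw [h.mem_toFinset] at hz ⊢
        obtain ⟨g, rfl⟩ := hz
        exact ⟨v⁻¹ * g, by simp [mul_smul]⟩
      · intro z _ w _ hzw
        exact MulAction.injective v⁻¹ hzw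
      · intro z hz
        rw [h.mem_toFinset] at hz
        obtain ⟨g, rfl⟩ := hz
        exact ⟨v • g • y, h.mem_toFinset.2 ⟨v * g, by simp [mul_smul]⟩, by simp⟩
      · intro z hz
        rw [h.mem_toFinset] at hz
        have hz' : v⁻¹ • z ∈ orbit G y := by
          obtain ⟨g, rfl⟩ := hz
          exact ⟨v⁻¹ * g, by simp [mul_smul]⟩
        rw [← hd _ hz', smul_inv_smul]
    have e2 : ∑ z ∈ h.toFinset, ψ z = 0 := by
      have e3 : (1 - d) * ∑ z ∈ h.toFinset, ψ z = 0 := by rw [sub_mul, one_mul, ← e1, sub_self]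
      rcases mul_eq_zero.1 e3 with h4 | h4
      · exact absurd (sub_eq_zero.1 h4).symm hd1
      · exact h4
    have e4 : weylSum G y ψ (fun z => φ z - c) = weylSum G y ψ φ := by
      rw [e, e]
      congr 1
      have e5 : ∑ z ∈ h.toFinset, ψ z * ((φ z - c : ℝ) : ℂ) =
          ∑ z ∈ h.toFinset, ψ z * φ z - (∑ z ∈ h.toFinset, ψ z) * c := by
        rw [Finset.sum_mul, ← Finset.sum_sub_distrib]
        refine Finset.sum_congr rfl fun z _ => ?_
        push_cast
        ring
      rw [e5, e2, zero_mul, sub_zero]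
    rw [e4]
    exact h3
  · push Not at hc
    have e4 : weylSum G y ψ (fun z => φ z - c) = ψ y * ((mean G y φ - c : ℝ) : ℂ) := by
      have e5 : mean G y φ - c = mean G y (fun z => φ z - c) := by
        have := mean_add h φ (fun _ => -c)
        rw [mean_const h] at this
        simpa only [sub_eq_add_neg] using this.symm
      rw [e5, e, mean_eq h]
      push_cast
      rw [Finset.sum_congr rfl fun z hz => by rw [hc z (h.mem_toFinset.1 hz)], ← Finset.mul_sum, mul_div_assoc]
    rw [e4, norm_mul, hψ.1 y (mem_orbit_self y), one_mul, Complex.norm_real, Real.norm_eq_abs]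
    exact h1

theorem weylSum_val {G : Type} [Group G] {P : Type} [MulAction G P] {x : P} (h : (orbit G x).Finite)
    (V : Subgroup G) (z : orbit G x) (φ : P → ℝ) {ε : ℝ}
    (hW : ∀ ψ : P → ℂ, IsEigen V (z : P) ψ → ‖weylSum V (z : P) ψ φ‖ ≤ ε) (ψ : orbit G x → ℂ)
    (hψ : IsEigen V z ψ) : ‖weylSum V z ψ (fun w => φ w)‖ ≤ ε := by
  classical
  let _ : Fintype (orbit G x) := h.fintype
  let ψ' : P → ℂ := fun w => if hw : w ∈ orbit G x then ψ ⟨w, hw⟩ else 0
  have hψ' : ∀ w : orbit G x, ψ' w = ψ w := fun w => dif_pos w.2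
  have hzf : (orbit V z).Finite := Set.toFinite _
  have horb : ∀ w ∈ orbit V (z : P), ∃ w' ∈ orbit V z, (w' : P) = w := by
    rintro _ ⟨v, rfl⟩
    exact ⟨v • z, ⟨v, rfl⟩, rfl⟩
  have hzf' : (orbit V (z : P)).Finite := by
    refine (hzf.image fun w : orbit G x => (w : P)).subset ?_
    intro w hw
    obtain ⟨w', h1, h2⟩ := horb w hw
    exact ⟨w', h1, h2⟩
  have he : IsEigen V (z : P) ψ' := by
    refine ⟨fun w hw => ?_, fun v => ?_⟩
    · obtain ⟨w', h1, rfl⟩ := horb w hw
      rw [hψ']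
      exact hψ.1 w' h1
    · obtain ⟨c, hc⟩ := hψ.2 v
      refine ⟨c, fun w hw => ?_⟩
      obtain ⟨w', h1, rfl⟩ := horb w hw
      have : v • (w' : P) = ((v • w' : orbit G x) : P) := rfl
      rw [this, hψ', hψ']
      exact hc w' h1
  have e : weylSum V z ψ (fun w => φ w) = weylSum V (z : P) ψ' φ := by
    rw [weylSum_eq hzf, weylSum_eq hzf']
    have e1 := mean_map hzf (fun w : orbit G x => (w : P)) (fun _ _ => rfl) (fun w => (ψ' w).re * φ w)
    have e2 := mean_map hzf (fun w : orbit G x => (w : P)) (fun _ _ => rfl) (fun w => (ψ' w).im * φ w)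
    simp only [hψ'] at e1 e2
    rw [e1, e2]
  rw [e]
  exact hW ψ' he

end Pool.Agent.J6H24.EQ
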