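import Pool.Agent.J6H24.EQ.Alm

/-!
# Averages over a product of orbits
-/

set_option autoImplicit false
set_option linter.unusedSectionVars false

namespace Pool.Agent.J6H24.EQ

open MulAction MeasureTheory Filter Topology

theorem mean_sq_le {G : Type} [Group G] {P : Type} [MulAction G P] {x : P} (h : (orbit G x).Finite)
    (φ : P → ℝ) : (mean G x φ) ^ 2 ≤ mean G x (fun z => φ z ^ 2) := by
  rw [mean_eq h, mean_eq h, div_pow]
  have h1 := sq_sum_le_card_mul_sum_sq (s := h.toFinset) (f := φ)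
  have h2 := card_pos h
  rw [div_le_div_iff₀ (by positivity) h2]
  calc _ ≤ (h.toFinset.card * ∑ z ∈ h.toFinset, φ z ^ 2) * h.toFinset.card :=
        mul_le_mul_of_nonneg_right h1 h2.le
    _ = _ := by ring

variable {Γ : Type} [Group Γ] {F : Subgroup Γ} {J : Type} [Fintype J] [DecidableEq J] {P Y : J → Type}
  [∀ j, MulAction F (P j)]

/-- the average over the product of the orbits -/
noncomputable def avg (F : Subgroup Γ) [∀ j, MulAction F (P j)] (x : ∀ j, P j) (g : (∀ j, P j) → ℝ) : ℝ :=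
  (∑ᶠ y : ∀ k, orbit F (x k), g fun k => y k) / Nat.card (∀ k, orbit F (x k))

section avg

variable {x : ∀ j, P j} [∀ k, Fintype (orbit F (x k))]

theorem avg_eq (g : (∀ j, P j) → ℝ) :
    avg F x g = (∑ y : ∀ k, orbit F (x k), g fun k => y k) / Fintype.card (∀ k, orbit F (x k)) := by
  classical
  rw [avg, finsum_eq_sum_of_fintype, Nat.card_eq_fintype_card]

theorem card_box : (0 : ℝ) < Fintype.card (∀ k, orbit F (x k)) := by
  have : Nonempty (∀ k, orbit F (x k)) := ⟨fun k => ⟨x k, mem_orbit_self _⟩⟩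
  have : 0 < Fintype.card (∀ k, orbit F (x k)) := Fintype.card_pos
  exact_mod_cast this

theorem avg_mono {g g' : (∀ j, P j) → ℝ} (h : ∀ y ∈ box F x, g y ≤ g' y) : avg F x g ≤ avg F x g' := by
  rw [avg_eq, avg_eq]
  exact div_le_div_of_nonneg_right (Finset.sum_le_sum fun y _ => h _ fun k => (y k).2) card_box.le

theorem avg_add (g g' : (∀ j, P j) → ℝ) : avg F x (fun y => g y + g' y) = avg F x g + avg F x g' := by
  rw [avg_eq, avg_eq, avg_eq, Finset.sum_add_distrib, add_div]

theorem avg_mul (c : ℝ) (g : (∀ j, P j) → ℝ) : avg F x (fun y => c * g y) = c * avg F x g := by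
  rw [avg_eq, avg_eq, ← Finset.mul_sum, mul_div_assoc]

theorem avg_sum {ι : Type} (s : Finset ι) (g : ι → (∀ j, P j) → ℝ) :
    avg F x (fun y => ∑ i ∈ s, g i y) = ∑ i ∈ s, avg F x (g i) := by
  rw [avg_eq, Finset.sum_comm, Finset.sum_div]
  exact Finset.sum_congr rfl fun i _ => (avg_eq _).symm

theorem avg_const (c : ℝ) : avg F x (fun _ => c) = c := by
  rw [avg_eq, Finset.sum_const, nsmul_eq_mul, Finset.card_univ, mul_comm, mul_div_assoc,
    div_self card_box.ne', mul_one]

theorem avg_abs_le (g : (∀ j, P j) → ℝ) {δ : ℝ} (hδ : 0 ≤ δ) (h : avg F x (fun y => g y ^ 2) ≤ δ ^ 2) :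
    avg F x (fun y => |g y|) ≤ δ := by
  have h1 := sq_sum_le_card_mul_sum_sq (s := (Finset.univ : Finset (∀ k, orbit F (x k))))
    (f := fun y => |g fun k => y k|)
  simp only [sq_abs] at h1
  have hc := card_box (F := F) (x := x)
  rw [avg_eq] at h ⊢
  rw [div_le_iff₀ hc] at h ⊢
  refine (abs_le_of_sq_le_sq' (h1.trans ?_) (by positivity)).2
  rw [Finset.card_univ]
  calc _ ≤ (Fintype.card (∀ k, orbit F (x k)) : ℝ) * (δ ^ 2 * Fintype.card (∀ k, orbit F (x k))) :=
        mul_le_mul_of_nonneg_left h hc.le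
    _ = _ := by ring

/-- the average of the means over the orbits is the average -/
theorem avg_mean (g : (∀ j, P j) → ℝ) : avg F x (fun y => mean F y g) = avg F x g := by
  classical
  rw [avg_eq, avg_eq]
  congr 1
  rw [← sum_mean (G := F) (fun w : ∀ k, orbit F (x k) => g fun k => w k)]
  refine Finset.sum_congr rfl fun y _ => ?_
  exact (mean_map (G := F) (x := y) (Set.toFinite _) (fun w : ∀ k, orbit F (x k) => fun k => (w k : P k))
    (fun _ _ => rfl) g).symm

end avg

variable [∀ j, TopologicalSpace (Y j)] [∀ j, MeasurableSpace (Y j)]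
  {pt : ∀ j, P j → Y j} {K H : ∀ j, P j → Subgroup Γ} {D : ∀ j, P j → ℕ} {m : ∀ j, Measure (Y j)}

theorem orbit_fin' (hP : ∀ j, Packets F (pt j) (K j) (H j) (D j) (m j)) (j : J) (y : P j) :
    (orbit F y).Finite := orbit_fin ((hP j).finite y) ((hP j).fixed y)

theorem orbit_fin'' (hP : ∀ j, Packets F (pt j) (K j) (H j) (D j) (m j)) (x : ∀ j, P j) :
    (orbit F x).Finite := by
  refine (Set.Finite.pi' fun j => orbit_fin' hP j (x j)).subset ?_
  rintro _ ⟨g, rfl⟩ j
  exact ⟨g, rfl⟩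

/-- the group which is trivial on all the CM fields -/
def allK (F : Subgroup Γ) (K : ∀ j, P j → Subgroup Γ) (x : ∀ j, P j) : Subgroup F :=
  (⨅ k, K k (x k)).subgroupOf F

theorem allK_index (hP : ∀ j, Packets F (pt j) (K j) (H j) (D j) (m j)) (x : ∀ j, P j) :
    (allK F K x).index ≠ 0 ∧ (allK F K x).index ≤ 2 ^ Fintype.card J := by
  have hn : (⨅ k, K k (x k)).Normal :=
    Subgroup.normal_iInf_normal fun k => Subgroup.normal_of_index_eq_two ((hP k).two _)
  have h0 : (⨅ k, K k (x k)).index ≠ 0 := Subgroup.index_iInf_ne_zero fun k => by rw [(hP k).two]; norm_num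
  have h1 : (⨅ k, K k (x k)).index ≤ 2 ^ Fintype.card J := by
    refine (Subgroup.index_iInf_le _).trans ?_
    rw [Finset.prod_congr rfl fun k _ => (hP k).two _, Finset.prod_const, Finset.card_univ]
  have h2 : (⨅ k, K k (x k)).relIndex F ∣ (⨅ k, K k (x k)).index := Subgroup.relIndex_dvd_index_of_normal _ _
  constructor
  · intro hh
    have h3 : (⨅ k, K k (x k)).relIndex F = 0 := hh
    rw [h3] at h2
    exact h0 (Nat.eq_zero_of_zero_dvd h2)
  · exact (Nat.le_of_dvd (Nat.pos_of_ne_zero h0) h2).trans h1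

theorem moment (hP : ∀ j, Packets F (pt j) (K j) (H j) (D j) (m j)) (x : ∀ j, P j) (a : ∀ j, Y j → ℝ)
    {C ε : ℝ} (hC0 : 0 ≤ C) (hC : ∀ k t, |a k t| ≤ C) (hε : 0 ≤ ε) (S : Finset J) {j : J} (hj : j ∈ S)
    (hW : ∀ z ∈ orbit F (x j), ∀ ψ : P j → ℂ, IsEigen (allK F K x) z ψ →
      ‖weylSum (allK F K x) z ψ (fun w => a j (pt j w))‖ ≤ ε) :
    avg F x (fun y => (mean F y fun w => ∏ k ∈ S, a k (pt k (w k))) ^ 2) ≤
      (C ^ 2) ^ (S.erase j).card * (ε * C) := by
  classical
  let _ : ∀ k, Fintype (orbit F (x k)) := fun k => (orbit_fin' hP k (x k)).fintype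
  set V := allK F K x with hV
  have h1 : avg F x (fun y => (mean F y fun w => ∏ k ∈ S, a k (pt k (w k))) ^ 2) ≤
      avg F x (fun y => (mean V y fun w => ∏ k ∈ S, a k (pt k (w k))) ^ 2) := by
    rw [← avg_mean (fun y => (mean V y fun w => ∏ k ∈ S, a k (pt k (w k))) ^ 2)]
    refine avg_mono fun y _ => ?_
    have hf := orbit_fin'' hP y
    rw [← mean_tower V hf]
    exact mean_sq_le hf _
  refine h1.trans ?_
  rw [avg_eq]
  have h2 : ∀ y : ∀ k, orbit F (x k), (mean V (fun k => (y k : P k)) fun w => ∏ k ∈ S, a k (pt k (w k))) =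
      mean V y (fun w => ∏ k ∈ S, (fun t : orbit F (x k) => a k (pt k t)) (w k)) := by
    intro y
    exact (mean_map (G := V) (x := y) (Set.toFinite _) (fun w : ∀ k, orbit F (x k) => fun k => (w k : P k))
      (fun _ _ => rfl) (fun w => ∏ k ∈ S, a k (pt k (w k)))).symm
  rw [Finset.sum_congr rfl fun y _ => by rw [h2 y]]
  refine second ?_ (fun k (t : orbit F (x k)) => a k (pt k t)) hC0 (fun k z => hC k _) hε S hj ?_
  · rintro v w k ⟨_, ⟨g, rfl⟩⟩
    refine Subtype.ext ?_
    show (v : F) • (w : F) • (g • x k) = (w : F) • (v : F) • (g • x k)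
    have hv : ∀ u : V, ((u : F) : Γ) ∈ K k (g • x k) := by
      intro u
      have h3 : ((u : F) : Γ) ∈ ⨅ k, K k (x k) := Subgroup.mem_subgroupOf.1 u.2
      rw [((hP k).conj g (x k)).1]
      exact (Subgroup.mem_iInf.1 h3) k
    have h4 := (hP k).abelian (g • x k) _ (inv_mem (hv v)) _ (inv_mem (hv w))
    rw [inv_inv, inv_inv] at h4
    have h5 := (hP k).fixed (g • x k) ((v : F)⁻¹ * (w : F)⁻¹ * (v : F) * (w : F)) (by push_cast; exact h4)
    simp only [mul_smul] at h5
    rw [inv_smul_eq_iff, inv_smul_eq_iff] at h5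
    exact h5
  · intro z ψ hψ
    exact weylSum_val (orbit_fin' hP j (x j)) V z (fun w => a j (pt j w)) (hW z z.2) ψ hψ

end Pool.Agent.J6H24.EQ
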