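import Pool.Agent.J6H24.EQ.Alm2

/-!
# Almost all points of the product of the orbits have equidistributed orbits
-/

set_option autoImplicit false
set_option linter.unusedSectionVars false

namespace Pool.Agent.J6H24.EQ

open MulAction MeasureTheory Filter Topology

variable {Γ : Type} [Group Γ] {F : Subgroup Γ} {J : Type} [Fintype J] [DecidableEq J] {P Y : J → Type}
  [∀ j, MulAction F (P j)] [∀ j, TopologicalSpace (Y j)] [∀ j, MeasurableSpace (Y j)]
  {pt : ∀ j, P j → Y j} {K H : ∀ j, P j → Subgroup Γ} {D : ∀ j, P j → ℕ} {m : ∀ j, Measure (Y j)}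

/-- the average error tends to zero -/
def Small (F : Subgroup Γ) [∀ j, MulAction F (P j)] (pt : ∀ j, P j → Y j) (D : ∀ j, P j → ℕ)
    (m : ∀ j, Measure (Y j)) (f : (∀ j, Y j) → ℝ) : Prop :=
  ∀ ε : ℝ, 0 < ε → ∃ D₀ : ℕ, ∀ x : ∀ j, P j, (∀ j, D₀ ≤ D j (x j)) →
    avg F x (fun y => |(mean F y fun z => f fun j => pt j (z j)) - ∫ t, f t ∂Measure.pi m|) ≤ ε

theorem expand {y : ∀ j, P j} (hf : (orbit F y).Finite) (φ : ∀ j, Y j → ℝ) (c : J → ℝ) :
    mean F y (fun z => ∏ k, φ k (pt k (z k))) - ∏ k, c k =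
      ∑ S ∈ (Finset.univ : Finset J).powerset.erase ∅, (∏ k ∈ Finset.univ \ S, c k) *
        mean F y (fun z => ∏ k ∈ S, (φ k (pt k (z k)) - c k)) := by
  classical
  have e2 : (fun z : ∀ j, P j => ∏ k, φ k (pt k (z k))) = fun z =>
      ∑ S ∈ (Finset.univ : Finset J).powerset, (∏ k ∈ Finset.univ \ S, c k) *
        ∏ k ∈ S, (φ k (pt k (z k)) - c k) := by
    funext z
    have := Finset.prod_add (fun k => φ k (pt k (z k)) - c k) c (Finset.univ : Finset J)
    simp only [sub_add_cancel] at this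
    rw [this]
    exact Finset.sum_congr rfl fun S _ => mul_comm _ _
  rw [e2, mean_sum hf, ← Finset.add_sum_erase _ _ (Finset.empty_mem_powerset (Finset.univ : Finset J))]
  have e3 : mean F y (fun z => (∏ k ∈ Finset.univ \ (∅ : Finset J), c k) *
      ∏ k ∈ (∅ : Finset J), (φ k (pt k (z k)) - c k)) = ∏ k, c k := by
    simp only [Finset.prod_empty, mul_one, Finset.sdiff_empty]
    exact mean_const hf _
  rw [e3, add_sub_cancel_left]
  exact Finset.sum_congr rfl fun S _ => mean_mul hf _ _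

theorem small_prod [∀ j, IsProbabilityMeasure (m j)] (hP : ∀ j, Packets F (pt j) (K j) (H j) (D j) (m j))
    (φ : ∀ j, Y j → ℝ) (hφ : ∀ j, Continuous (φ j) ∧ HasCompactSupport (φ j)) :
    Small F pt D m (fun y => ∏ j, φ j (y j)) := by
  classical
  intro ε hε
  have hb : ∀ k, ∃ C : ℝ, ∀ t, |φ k t - ∫ t, φ k t ∂m k| ≤ C := by
    intro k
    obtain ⟨C, hC⟩ := (hφ k).2.exists_bound_of_continuous (hφ k).1
    refine ⟨C + |∫ t, φ k t ∂m k|, fun t => (abs_sub _ _).trans ?_⟩
    have := hC t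
    rw [Real.norm_eq_abs] at this
    linarith
  choose C hC using hb
  obtain ⟨C', hC1, hC2⟩ : ∃ C' : ℝ, 1 ≤ C' ∧ ∀ k t, |φ k t - ∫ t, φ k t ∂m k| ≤ C' := by
    refine ⟨1 + ∑ k, |C k|, ?_, fun k t => ?_⟩
    · have : 0 ≤ ∑ k, |C k| := Finset.sum_nonneg fun k _ => abs_nonneg _
      linarith
    · have h1 : |C k| ≤ ∑ k, |C k| := Finset.single_le_sum (f := fun k => |C k|) (fun k _ => abs_nonneg _) (Finset.mem_univ k)
      have h2 := hC k t
      have h3 := le_abs_self (C k)
      linarith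
  set c : J → ℝ := fun k => ∫ t, φ k t ∂m k with hc
  set M : ℝ := 1 + ∑ S ∈ (Finset.univ : Finset J).powerset.erase ∅, |∏ k ∈ Finset.univ \ S, c k| with hM
  have hM0 : 0 < M := by
    have : 0 ≤ ∑ S ∈ (Finset.univ : Finset J).powerset.erase ∅, |∏ k ∈ Finset.univ \ S, c k| :=
      Finset.sum_nonneg fun _ _ => abs_nonneg _
    linarith
  set δ : ℝ := ε / M with hδ
  have hδ0 : 0 < δ := div_pos hε hM0
  have hB0 : 0 < (C' ^ 2) ^ Fintype.card J * C' := by positivity
  have hε1 : 0 < δ ^ 2 / ((C' ^ 2) ^ Fintype.card J * C') := by positivity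
  have hw := fun k => (hP k).weyl (φ k) (hφ k).1 (hφ k).2 _ hε1 (2 ^ Fintype.card J)
  choose d hd using hw
  refine ⟨∑ k, d k, fun x hx => ?_⟩
  let _ : ∀ k, Fintype (orbit F (x k)) := fun k => (orbit_fin' hP k (x k)).fintype
  have hdx : ∀ k, d k ≤ D k (x k) := fun k =>
    (Finset.single_le_sum (f := d) (fun k _ => Nat.zero_le _) (Finset.mem_univ k)).trans (hx k)
  have hS : ∀ S ∈ (Finset.univ : Finset J).powerset.erase ∅,
      avg F x (fun y => |mean F y (fun z => ∏ k ∈ S, (φ k (pt k (z k)) - c k))|) ≤ δ := by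
    intro S hS
    obtain ⟨j, hj⟩ := Finset.nonempty_iff_ne_empty.2 (Finset.mem_erase.1 hS).1
    refine avg_abs_le _ hδ0.le ?_
    refine (moment hP x (fun k t => φ k t - c k) (by linarith) hC2 hε1.le S hj ?_).trans ?_
    · intro z hz ψ hψ
      have hz1 : K j z = K j (x j) ∧ D j z = D j (x j) := by
        obtain ⟨g, rfl⟩ := hz
        exact ⟨((hP j).conj g (x j)).1, ((hP j).conj g (x j)).2.2⟩
      have hV : allK F K x ≤ (K j z).subgroupOf F := by
        rw [hz1.1]
        exact Subgroup.subgroupOf_mono F (iInf_le _ j)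
      obtain ⟨h1, h2⟩ := hd j z (by rw [hz1.2]; exact hdx j) (allK F K x) hV (allK_index hP x).1 (allK_index hP x).2
      have hzf : (orbit (allK F K x) z).Finite := by
        refine (orbit_fin' hP j z).subset ?_
        rintro _ ⟨v, rfl⟩
        exact ⟨(v : F), rfl⟩
      exact weylSum_sub hzf hψ (fun w => φ j (pt j w)) (c j) h1 (h2 ψ hψ)
    · have h3 : (C' ^ 2) ^ (S.erase j).card ≤ (C' ^ 2) ^ Fintype.card J :=
        pow_le_pow_right₀ (one_le_pow₀ hC1) (Finset.card_le_univ _)
      calc (C' ^ 2) ^ (S.erase j).card * (δ ^ 2 / ((C' ^ 2) ^ Fintype.card J * C') * C')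
          ≤ (C' ^ 2) ^ Fintype.card J * (δ ^ 2 / ((C' ^ 2) ^ Fintype.card J * C') * C') :=
            mul_le_mul_of_nonneg_right h3 (by positivity)
        _ = δ ^ 2 := by field_simp
  have e : ∫ t, (∏ j, φ j (t j)) ∂Measure.pi m = ∏ j, c j := integral_fintype_prod_eq_prod _
  have h4 : avg F x (fun y => |(mean F y fun z => ∏ j, φ j (pt j (z j))) - ∏ j, c j|) ≤
      avg F x (fun y => ∑ S ∈ (Finset.univ : Finset J).powerset.erase ∅, |∏ k ∈ Finset.univ \ S, c k| *
        |mean F y (fun z => ∏ k ∈ S, (φ k (pt k (z k)) - c k))|) := by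
    refine avg_mono fun y _ => ?_
    rw [expand (orbit_fin'' hP y) φ c]
    refine (Finset.abs_sum_le_sum_abs _ _).trans (le_of_eq ?_)
    exact Finset.sum_congr rfl fun S _ => abs_mul _ _
  show avg F x (fun y => |(mean F y fun z => ∏ j, φ j (pt j (z j))) - ∫ t, (∏ j, φ j (t j)) ∂Measure.pi m|) ≤ ε
  rw [e]
  refine h4.trans ?_
  rw [avg_sum]
  calc ∑ S ∈ (Finset.univ : Finset J).powerset.erase ∅, avg F x (fun y => |∏ k ∈ Finset.univ \ S, c k| *
        |mean F y (fun z => ∏ k ∈ S, (φ k (pt k (z k)) - c k))|)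
      ≤ ∑ S ∈ (Finset.univ : Finset J).powerset.erase ∅, |∏ k ∈ Finset.univ \ S, c k| * δ := by
        refine Finset.sum_le_sum fun S hS' => ?_
        rw [avg_mul]
        exact mul_le_mul_of_nonneg_left (hS S hS') (abs_nonneg _)
    _ = (M - 1) * δ := by rw [← Finset.sum_mul, hM, add_sub_cancel_left]
    _ ≤ M * δ := mul_le_mul_of_nonneg_right (by linarith) hδ0.le
    _ = ε := by rw [hδ]; field_simp

theorem small_all [∀ j, LocallyCompactSpace (Y j)] [∀ j, T2Space (Y j)]
    [∀ j, SecondCountableTopology (Y j)] [∀ j, BorelSpace (Y j)] [∀ j, IsProbabilityMeasure (m j)]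
    (hP : ∀ j, Packets F (pt j) (K j) (H j) (D j) (m j)) {f : (∀ j, Y j) → ℝ}
    (hf : Continuous f) (hc : HasCompactSupport f) : Small F pt D m f := by
  have hspan : ∀ g ∈ Submodule.span ℝ (Prods Y), Integrable g (Measure.pi m) ∧ Small F pt D m g := by
    intro g hg
    induction hg using Submodule.span_induction with
    | mem g hg =>
      obtain ⟨φ, hφ, rfl⟩ := hg
      have hi : ∀ j, Integrable (φ j) (m j) := fun j => (hφ j).1.integrable_of_hasCompactSupport (hφ j).2
      exact ⟨Integrable.fintype_prod_dep hi, small_prod hP φ hφ⟩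
    | zero =>
      refine ⟨integrable_zero _ _ _, fun ε hε => ⟨0, fun x _ => ?_⟩⟩
      let _ : ∀ k, Fintype (orbit F (x k)) := fun k => (orbit_fin' hP k (x k)).fintype
      have e : (fun y : ∀ j, P j => |(mean F y fun z => (0 : (∀ j, Y j) → ℝ) fun j => pt j (z j)) -
          ∫ t, (0 : (∀ j, Y j) → ℝ) t ∂Measure.pi m|) = fun _ => 0 := by
        funext y
        have : (mean F y fun z => (0 : (∀ j, Y j) → ℝ) fun j => pt j (z j)) = 0 :=
          mean_const (orbit_fin'' hP y) 0
        rw [this]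
        simp
      rw [e, avg_const]
      exact hε.le
    | add g g' _ _ h1 h2 =>
      refine ⟨h1.1.add h2.1, fun ε hε => ?_⟩
      obtain ⟨d1, hd1⟩ := h1.2 (ε / 2) (by linarith)
      obtain ⟨d2, hd2⟩ := h2.2 (ε / 2) (by linarith)
      refine ⟨max d1 d2, fun x hx => ?_⟩
      let _ : ∀ k, Fintype (orbit F (x k)) := fun k => (orbit_fin' hP k (x k)).fintype
      have h3 := hd1 x fun j => (le_max_left _ _).trans (hx j)
      have h4 := hd2 x fun j => (le_max_right _ _).trans (hx j)
      have h5 := add_le_add h3 h4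
      rw [← avg_add, add_halves] at h5
      refine le_trans (avg_mono fun y _ => ?_) h5
      have e1 : (mean F y fun z => (g + g') fun j => pt j (z j)) =
          (mean F y fun z => g fun j => pt j (z j)) + mean F y fun z => g' fun j => pt j (z j) :=
        mean_add (orbit_fin'' hP y) _ _
      have e2 : ∫ t, (g + g') t ∂Measure.pi m = ∫ t, g t ∂Measure.pi m + ∫ t, g' t ∂Measure.pi m :=
        integral_add h1.1 h2.1
      rw [e1, e2, add_sub_add_comm]
      exact abs_add_le _ _
    | smul c g _ h1 =>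
      refine ⟨h1.1.smul c, fun ε hε => ?_⟩
      obtain ⟨d1, hd1⟩ := h1.2 (ε / (|c| + 1)) (by positivity)
      refine ⟨d1, fun x hx => ?_⟩
      let _ : ∀ k, Fintype (orbit F (x k)) := fun k => (orbit_fin' hP k (x k)).fintype
      have h3 := mul_le_mul_of_nonneg_left (hd1 x hx) (abs_nonneg c)
      rw [← avg_mul] at h3
      refine (avg_mono fun y _ => ?_).trans (h3.trans ?_)
      · have e1 : (mean F y fun z => (c • g) fun j => pt j (z j)) = c * mean F y fun z => g fun j => pt j (z j) :=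
          mean_mul (orbit_fin'' hP y) _ _
        have e2 : ∫ t, (c • g) t ∂Measure.pi m = c * ∫ t, g t ∂Measure.pi m := integral_const_mul _ _
        rw [e1, e2, ← mul_sub, abs_mul]
      · rw [mul_div_assoc', div_le_iff₀ (by positivity)]
        nlinarith [abs_nonneg c]
  intro ε hε
  obtain ⟨g, hg, hfg⟩ := dense_prods hf hc (ε := ε / 3) (by linarith)
  obtain ⟨hgi, hgs⟩ := hspan g hg
  have hfi : Integrable f (Measure.pi m) := hf.integrable_of_hasCompactSupport hc
  obtain ⟨d, hd⟩ := hgs (ε / 3) (by linarith)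
  refine ⟨d, fun x hx => ?_⟩
  let _ : ∀ k, Fintype (orbit F (x k)) := fun k => (orbit_fin' hP k (x k)).fintype
  have h2 : |∫ y, g y ∂Measure.pi m - ∫ y, f y ∂Measure.pi m| ≤ ε / 3 := by
    rw [← integral_sub hgi hfi]
    have := norm_integral_le_of_norm_le_const (μ := Measure.pi m) (f := fun y => g y - f y) (C := ε / 3)
      (Eventually.of_forall fun y => by rw [Real.norm_eq_abs, abs_sub_comm]; exact hfg y)
    rw [Real.norm_eq_abs] at this
    simpa using this
  have h6 : avg F x (fun y => |(mean F y fun z => f fun j => pt j (z j)) - ∫ t, f t ∂Measure.pi m|) ≤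
      avg F x (fun y => |(mean F y fun z => g fun j => pt j (z j)) - ∫ t, g t ∂Measure.pi m| + (ε / 3 + ε / 3)) := by
    refine avg_mono fun y _ => ?_
    have hfin := orbit_fin'' hP y
    have h1 : |mean F y (fun z => f fun j => pt j (z j)) - mean F y (fun z => g fun j => pt j (z j))| ≤ ε / 3 := by
      have e : mean F y (fun z => f fun j => pt j (z j)) =
          mean F y (fun z => (f fun j => pt j (z j)) - g fun j => pt j (z j)) +
            mean F y (fun z => g fun j => pt j (z j)) := by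
        rw [← mean_add hfin]
        congr 1
        funext z
        ring
      rw [e, add_sub_cancel_right]
      exact abs_mean_le_of_le hfin fun z _ => hfg _
    have h3 := abs_sub_le (mean F y (fun z => f fun j => pt j (z j)))
      (mean F y (fun z => g fun j => pt j (z j))) (∫ y, f y ∂Measure.pi m)
    have h4 := abs_sub_le (mean F y (fun z => g fun j => pt j (z j))) (∫ y, g y ∂Measure.pi m)
      (∫ y, f y ∂Measure.pi m)
    linarith
  refine h6.trans ?_
  rw [avg_add, avg_const]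
  have := hd x hx
  linarith

/-- few exceptions -/
theorem few_of_small (hP : ∀ j, Packets F (pt j) (K j) (H j) (D j) (m j)) {f : (∀ j, Y j) → ℝ}
    (hs : Small F pt D m f) {ε : ℝ} (hε : 0 < ε) : ∃ D₀ : ℕ, ∀ x : ∀ j, P j, (∀ j, D₀ ≤ D j (x j)) →
      (({y ∈ box F x | ε < |(mean F y fun z => f fun j => pt j (z j)) - ∫ t, f t ∂Measure.pi m|}.ncard : ℕ) : ℝ) ≤
        ε * (box F x).ncard := by
  classical
  obtain ⟨d, hd⟩ := hs (ε ^ 2) (by positivity)
  refine ⟨d, fun x hx => ?_⟩
  let _ : ∀ k, Fintype (orbit F (x k)) := fun k => (orbit_fin' hP k (x k)).fintype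
  have h1 := hd x hx
  set g : (∀ j, P j) → ℝ := fun y => |(mean F y fun z => f fun j => pt j (z j)) - ∫ t, f t ∂Measure.pi m| with hg
  let ι : (∀ k, orbit F (x k)) → ∀ k, P k := fun y k => y k
  have hι : Function.Injective ι := fun y w h => funext fun k => Subtype.ext (congrFun h k)
  have hbox : box F x = ι '' Set.univ := by
    ext y
    constructor
    · intro hy
      exact ⟨fun k => ⟨y k, hy k⟩, Set.mem_univ _, rfl⟩
    · rintro ⟨w, _, rfl⟩ k
      exact (w k).2
  have hbad : {y ∈ box F x | ε < g y} = ι '' {w | ε < g (ι w)} := by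
    ext y
    constructor
    · rintro ⟨hy, h⟩
      exact ⟨fun k => ⟨y k, hy k⟩, h, rfl⟩
    · rintro ⟨w, h, rfl⟩
      exact ⟨fun k => (w k).2, h⟩
  show (({y ∈ box F x | ε < g y}.ncard : ℕ) : ℝ) ≤ _
  rw [hbad, hbox, Set.ncard_image_of_injective _ hι, Set.ncard_image_of_injective _ hι, Set.ncard_univ,
    Nat.card_eq_fintype_card, Set.ncard_eq_toFinset_card']
  rw [avg_eq, div_le_iff₀ card_box] at h1
  have h2 : (({w | ε < g (ι w)} : Set (∀ k, orbit F (x k))).toFinset.card : ℝ) * ε ≤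
      ∑ w : ∀ k, orbit F (x k), g (ι w) := by
    calc (({w | ε < g (ι w)} : Set (∀ k, orbit F (x k))).toFinset.card : ℝ) * ε
        = ∑ w ∈ ({w | ε < g (ι w)} : Set (∀ k, orbit F (x k))).toFinset, ε := by
          rw [Finset.sum_const, nsmul_eq_mul]
      _ ≤ ∑ w ∈ ({w | ε < g (ι w)} : Set (∀ k, orbit F (x k))).toFinset, g (ι w) := by
          refine Finset.sum_le_sum fun w hw => ?_
          rw [Set.mem_toFinset] at hw
          exact (show ε < g (ι w) from hw).le
      _ ≤ ∑ w : ∀ k, orbit F (x k), g (ι w) :=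
          Finset.sum_le_sum_of_subset_of_nonneg (Finset.subset_univ _) fun w _ _ => abs_nonneg _
  have h3 := h2.trans h1
  have h4 : (({w | ε < g (ι w)} : Set (∀ k, orbit F (x k))).toFinset.card : ℝ) * ε ≤
      (ε * Fintype.card (∀ k, orbit F (x k))) * ε := by
    calc _ ≤ _ := h3
      _ = _ := by ring
  exact le_of_mul_le_mul_right h4 hε

end Pool.Agent.J6H24.EQ
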