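import Pool.Agent.J6H24.EQ.Alm3

/-!
# A set of density one
-/

set_option autoImplicit false
set_option linter.unusedSectionVars false

namespace Pool.Agent.J6H24.EQ

open MulAction MeasureTheory Filter Topology

theorem dense_seq (X : Type) [TopologicalSpace X] [LocallyCompactSpace X] [T2Space X]
    [SecondCountableTopology X] : ∃ u : ℕ → X → ℝ, (∀ n, Continuous (u n) ∧ HasCompactSupport (u n)) ∧
      ∀ f : X → ℝ, Continuous f → HasCompactSupport f → ∀ ε : ℝ, 0 < ε → ∃ n, ∀ y, |f y - u n y| ≤ ε := by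
  classical
  have E : CompactExhaustion X := default
  have hχ := fun n => exists_continuous_one_zero_of_isCompact (E.isCompact n) isClosed_empty
    (Set.disjoint_empty _)
  choose χ h1 _ h3 h4 using hχ
  let h : ℕ → C(X, ℝ) := TopologicalSpace.denseSeq C(X, ℝ)
  refine ⟨fun k y => χ k.unpair.1 y * h k.unpair.2 y, fun k => ⟨(χ _).continuous.mul (h _).continuous,
    (h3 _).mul_right⟩, fun f hf hc ε hε => ?_⟩
  obtain ⟨n, hn⟩ := E.exists_superset_of_isCompact hc.isCompact
  let U : Set C(X, ℝ) := {g | Set.MapsTo (g - ⟨f, hf⟩ : C(X, ℝ)) (tsupport (χ n)) (Metric.ball 0 ε)}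
  have hU : IsOpen U := by
    have h5 : IsOpen {g : C(X, ℝ) | Set.MapsTo g (tsupport (χ n)) (Metric.ball 0 ε)} :=
      ContinuousMap.isOpen_setOfPred_mapsTo (h3 n).isCompact Metric.isOpen_ball
    exact h5.preimage (continuous_id.sub continuous_const)
  have hfU : (⟨f, hf⟩ : C(X, ℝ)) ∈ U := by
    intro y _
    simpa using hε
  obtain ⟨l, hl⟩ := (TopologicalSpace.denseRange_denseSeq C(X, ℝ)).exists_mem_open hU ⟨_, hfU⟩
  refine ⟨Nat.pair n l, fun y => ?_⟩
  show |f y - χ (Nat.pair n l).unpair.1 y * h (Nat.pair n l).unpair.2 y| ≤ ε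
  rw [Nat.unpair_pair]
  show |f y - χ n y * h l y| ≤ ε
  by_cases hy : y ∈ tsupport (χ n)
  · have h6 := hl hy
    rw [Metric.mem_ball, dist_zero_right, Real.norm_eq_abs] at h6
    have h7 : |h l y - f y| < ε := h6
    have h8 : χ n y * f y = f y := by
      by_cases h0 : f y = 0
      · rw [h0, mul_zero]
      · have : χ n y = 1 := h1 n (hn (subset_tsupport f h0))
        rw [this, one_mul]
    have h9 : f y - χ n y * h l y = χ n y * (f y - h l y) := by rw [mul_sub, h8]
    rw [h9, abs_mul, abs_of_nonneg (h4 n y).1, abs_sub_comm]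
    calc χ n y * |h l y - f y| ≤ 1 * ε := mul_le_mul (h4 n y).2 h7.le (abs_nonneg _) zero_le_one
      _ = ε := one_mul _
  · have h10 : χ n y = 0 := image_eq_zero_of_notMem_tsupport hy
    have h11 : f y = 0 := by
      by_contra h0
      have : χ n y = 1 := h1 n (hn (subset_tsupport f h0))
      rw [h10] at this
      exact zero_ne_one this
    rw [h10, h11, zero_mul, sub_zero, abs_zero]
    exact hε.le

variable {Γ : Type} [Group Γ] {F : Subgroup Γ} {J : Type} [Fintype J] [DecidableEq J] {P Y : J → Type}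
  [∀ j, MulAction F (P j)] [∀ j, TopologicalSpace (Y j)] [∀ j, MeasurableSpace (Y j)]
  {pt : ∀ j, P j → Y j} {K H : ∀ j, P j → Subgroup Γ} {D : ∀ j, P j → ℕ} {m : ∀ j, Measure (Y j)}

theorem density [Nonempty J] [∀ j, LocallyCompactSpace (Y j)] [∀ j, T2Space (Y j)]
    [∀ j, SecondCountableTopology (Y j)] [∀ j, BorelSpace (Y j)] [∀ j, IsProbabilityMeasure (m j)]
    (hP : ∀ j, Packets F (pt j) (K j) (H j) (D j) (m j)) :
    ∃ G : Set (∀ j, P j), (∀ ε : ℝ, 0 < ε → ∃ D₀ : ℕ, ∀ x : ∀ j, P j, (∀ j, D₀ ≤ D j (x j)) →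
      (1 - ε) * (box F x).ncard ≤ ((G ∩ box F x).ncard : ℝ)) ∧
      ∀ x : ℕ → ∀ j, P j, (∀ i, x i ∈ G) → (∀ j, Tendsto (fun i => D j (x i j)) atTop atTop) →
        Equidistributed F pt m x := by
  classical
  obtain ⟨u, hu, hdense⟩ := dense_seq (∀ j, Y j)
  set err : ℕ → (∀ j, P j) → ℝ := fun n y => |(mean F y fun z => u n fun j => pt j (z j)) -
    ∫ t, u n t ∂Measure.pi m| with herr
  have hε : ∀ N : ℕ, (0 : ℝ) < 1 / ((N : ℝ) + 1) ^ 2 := fun N => by positivity
  have h1 := fun n N => few_of_small hP (small_all hP (hu n).1 (hu n).2) (hε N)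
  choose d hd using h1
  set T : ℕ → ℕ := fun N => N + ∑ N' ∈ Finset.range (N + 1), ∑ n ∈ Finset.range (N' + 1), d n N' with hT
  have hTN : ∀ N, N ≤ T N := fun N => Nat.le_add_right _ _
  have hTd : ∀ N, ∀ n ≤ N, d n N ≤ T N := by
    intro N n hn
    refine le_trans ?_ (Nat.le_add_left _ _)
    refine le_trans ?_ (Finset.single_le_sum (f := fun N' => ∑ n ∈ Finset.range (N' + 1), d n N')
      (fun _ _ => Nat.zero_le _) (Finset.mem_range.2 (Nat.lt_succ_self N)))
    exact Finset.single_le_sum (f := fun n => d n N) (fun _ _ => Nat.zero_le _)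
      (Finset.mem_range.2 (Nat.lt_succ_of_le hn))
  set L : (∀ j, P j) → ℕ := fun y => Nat.findGreatest (fun N => ∀ j, T N ≤ D j (y j)) (∑ j, D j (y j)) with hL
  have hL1 : ∀ (y : ∀ j, P j) (N : ℕ), (∀ j, T N ≤ D j (y j)) → N ≤ L y ∧ ∀ j, T (L y) ≤ D j (y j) := by
    intro y N hN
    obtain ⟨j⟩ := ‹Nonempty J›
    have h2 : N ≤ ∑ j, D j (y j) := (hTN N).trans ((hN j).trans
      (Finset.single_le_sum (f := fun j => D j (y j)) (fun _ _ => Nat.zero_le _) (Finset.mem_univ j)))
    exact ⟨Nat.le_findGreatest h2 hN, Nat.findGreatest_spec (P := fun N => ∀ j, T N ≤ D j (y j)) h2 hN⟩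
  refine ⟨{y | ∀ n ≤ L y, err n y ≤ 1 / ((L y : ℝ) + 1) ^ 2}, fun ε hε0 => ?_, fun x hx hDx => ?_⟩
  · obtain ⟨N₀, hN₀⟩ := exists_nat_gt (1 / ε)
    refine ⟨T N₀, fun x hx => ?_⟩
    obtain ⟨hN1, hN2⟩ := hL1 x N₀ hx
    have hfin : (box F x).Finite := Set.Finite.pi' fun j => orbit_fin' hP j (x j)
    have hLy : ∀ y ∈ box F x, L y = L x := by
      intro y hy
      have : ∀ j, D j (y j) = D j (x j) := by
        intro j
        obtain ⟨g, hg⟩ := hy j
        rw [← hg]
        exact ((hP j).conj g (x j)).2.2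
      rw [hL]
      simp only [this]
    set N := L x with hN
    have h3 : box F x \ ({y | ∀ n ≤ L y, err n y ≤ 1 / ((L y : ℝ) + 1) ^ 2} ∩ box F x) ⊆
        ⋃ n ∈ Finset.range (N + 1), {y ∈ box F x | 1 / ((N : ℝ) + 1) ^ 2 < err n y} := by
      rintro y ⟨hy, hy2⟩
      have hy3 : ¬ ∀ n ≤ L y, err n y ≤ 1 / ((L y : ℝ) + 1) ^ 2 := fun h => hy2 ⟨h, hy⟩
      rw [hLy y hy] at hy3
      push Not at hy3
      obtain ⟨n, hn, h4⟩ := hy3
      exact Set.mem_biUnion (Finset.mem_coe.2 (Finset.mem_range.2 (Nat.lt_succ_of_le hn))) ⟨hy, h4⟩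
    have h4 : ((box F x \ ({y | ∀ n ≤ L y, err n y ≤ 1 / ((L y : ℝ) + 1) ^ 2} ∩ box F x)).ncard : ℝ) ≤
        (1 / ((N : ℝ) + 1)) * (box F x).ncard := by
      have h5 : (box F x \ ({y | ∀ n ≤ L y, err n y ≤ 1 / ((L y : ℝ) + 1) ^ 2} ∩ box F x)).ncard ≤
          ∑ n ∈ Finset.range (N + 1), ({y ∈ box F x | 1 / ((N : ℝ) + 1) ^ 2 < err n y}).ncard := by
        refine (Set.ncard_le_ncard h3 ?_).trans (Finset.set_ncard_biUnion_le _ _)
        exact Set.Finite.biUnion (Finset.finite_toSet _) fun n _ => hfin.subset fun y hy => hy.1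
      calc ((box F x \ ({y | ∀ n ≤ L y, err n y ≤ 1 / ((L y : ℝ) + 1) ^ 2} ∩ box F x)).ncard : ℝ)
          ≤ ((∑ n ∈ Finset.range (N + 1), ({y ∈ box F x | 1 / ((N : ℝ) + 1) ^ 2 < err n y}).ncard : ℕ) : ℝ) := by
            exact_mod_cast h5
        _ = ∑ n ∈ Finset.range (N + 1), (({y ∈ box F x | 1 / ((N : ℝ) + 1) ^ 2 < err n y}.ncard : ℕ) : ℝ) := by
            push_cast; rfl
        _ ≤ ∑ _n ∈ Finset.range (N + 1), 1 / ((N : ℝ) + 1) ^ 2 * (box F x).ncard := by
            refine Finset.sum_le_sum fun n hn => ?_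
            refine hd n N x fun j => (hTd N n ?_).trans (hN2 j)
            exact Nat.lt_succ_iff.1 (Finset.mem_range.1 hn)
        _ = (1 / ((N : ℝ) + 1)) * (box F x).ncard := by
            rw [Finset.sum_const, Finset.card_range, nsmul_eq_mul]
            push_cast
            field_simp
    have h6 : (box F x).ncard = (box F x \ ({y | ∀ n ≤ L y, err n y ≤ 1 / ((L y : ℝ) + 1) ^ 2} ∩ box F x)).ncard +
        ({y | ∀ n ≤ L y, err n y ≤ 1 / ((L y : ℝ) + 1) ^ 2} ∩ box F x).ncard := by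
      rw [Set.ncard_sdiff_add_ncard_of_subset Set.inter_subset_right hfin]
    have h7 : ((box F x).ncard : ℝ) = ((box F x \ ({y | ∀ n ≤ L y, err n y ≤ 1 / ((L y : ℝ) + 1) ^ 2} ∩
        box F x)).ncard : ℝ) + (({y | ∀ n ≤ L y, err n y ≤ 1 / ((L y : ℝ) + 1) ^ 2} ∩ box F x).ncard : ℝ) := by
      exact_mod_cast h6
    have h8 : 1 / ((N : ℝ) + 1) ≤ ε := by
      have h9 : (N₀ : ℝ) ≤ N := by exact_mod_cast hN1
      rw [div_le_iff₀ (by positivity)]
      have h10 : 1 < ε * N₀ := by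
        rw [div_lt_iff₀ hε0] at hN₀
        linarith
      nlinarith
    have h11 : 1 / ((N : ℝ) + 1) * (box F x).ncard ≤ ε * (box F x).ncard :=
      mul_le_mul_of_nonneg_right h8 (Nat.cast_nonneg _)
    linarith
  · intro f hf hc
    have hev : ∀ N : ℕ, ∀ᶠ i in atTop, ∀ n ≤ N, err n (x i) ≤ 1 / ((N : ℝ) + 1) := by
      intro N
      have h2 : ∀ᶠ i in atTop, ∀ j, T N ≤ D j (x i j) :=
        eventually_all.2 fun j => (hDx j).eventually_ge_atTop _
      filter_upwards [h2] with i hi n hn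
      obtain ⟨h3, _⟩ := hL1 (x i) N hi
      have h4 : err n (x i) ≤ 1 / ((L (x i) : ℝ) + 1) ^ 2 := hx i n (hn.trans h3)
      refine h4.trans ?_
      have h5 : (N : ℝ) ≤ L (x i) := by exact_mod_cast h3
      have h6 : (0 : ℝ) ≤ N := Nat.cast_nonneg _
      refine one_div_le_one_div_of_le (by positivity) ?_
      nlinarith
    rw [Metric.tendsto_nhds]
    intro ε hε0
    obtain ⟨n, hn⟩ := hdense f hf hc (ε / 4) (by linarith)
    obtain ⟨N₀, hN₀⟩ := exists_nat_gt (4 / ε)
    filter_upwards [hev (max n N₀)] with i hi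
    have h5 := hi n (le_max_left _ _)
    have h6 : err n (x i) ≤ ε / 4 := by
      refine h5.trans ?_
      have h7 : (N₀ : ℝ) ≤ ((max n N₀ : ℕ) : ℝ) := by exact_mod_cast le_max_right _ _
      rw [div_le_iff₀ (by positivity)]
      rw [div_lt_iff₀ hε0] at hN₀
      nlinarith
    rw [Real.dist_eq]
    have hfin := orbit_fin'' hP (x i)
    have hfi : Integrable f (Measure.pi m) := hf.integrable_of_hasCompactSupport hc
    have hgi : Integrable (u n) (Measure.pi m) := (hu n).1.integrable_of_hasCompactSupport (hu n).2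
    have h1 : |mean F (x i) (fun z => f fun j => pt j (z j)) - mean F (x i) (fun z => u n fun j => pt j (z j))| ≤
        ε / 4 := by
      have e : mean F (x i) (fun z => f fun j => pt j (z j)) =
          mean F (x i) (fun z => (f fun j => pt j (z j)) - u n fun j => pt j (z j)) +
            mean F (x i) (fun z => u n fun j => pt j (z j)) := by
        rw [← mean_add hfin]
        congr 1
        funext z
        ring
      rw [e, add_sub_cancel_right]
      exact abs_mean_le_of_le hfin fun z _ => hn _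
    have h2 : |∫ y, u n y ∂Measure.pi m - ∫ y, f y ∂Measure.pi m| ≤ ε / 4 := by
      rw [← integral_sub hgi hfi]
      have := norm_integral_le_of_norm_le_const (μ := Measure.pi m) (f := fun y => u n y - f y) (C := ε / 4)
        (Eventually.of_forall fun y => by rw [Real.norm_eq_abs, abs_sub_comm]; exact hn y)
      rw [Real.norm_eq_abs] at this
      simpa using this
    have h6' : |mean F (x i) (fun z => u n fun j => pt j (z j)) - ∫ y, u n y ∂Measure.pi m| ≤ ε / 4 := h6
    have h3 := abs_sub_le (mean F (x i) (fun z => f fun j => pt j (z j)))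
      (mean F (x i) (fun z => u n fun j => pt j (z j))) (∫ y, f y ∂Measure.pi m)
    have h4 := abs_sub_le (mean F (x i) (fun z => u n fun j => pt j (z j))) (∫ y, u n y ∂Measure.pi m)
      (∫ y, f y ∂Measure.pi m)
    linarith

end Pool.Agent.J6H24.EQ
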