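import Mathlib

/-!
# Special points of products of modular curves

The notions used in the statements. `Γ` is the Galois group of `ℚ̄ / ℚ`, `F` its subgroup which belongs
to the base field.
-/

set_option autoImplicit false
set_option linter.unusedSectionVars false

namespace Pool.Agent.J6H24.EQ

open MulAction MeasureTheory Filter Topology

/-- The mean of the function `φ` over the orbit of the point `x`. -/
noncomputable def mean (G : Type) [Group G] {P : Type} [MulAction G P] (x : P) (φ : P → ℝ) : ℝ :=
  (∑ᶠ z ∈ orbit G x, φ z) / (orbit G x).ncard

variable {Γ : Type} [Group Γ]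

/-- The properties of the groups which belong to a CM point: `K` is the group of the CM field, an
imaginary quadratic field; `H` is the group of an abelian extension of the CM field which is normal
over `ℚ` (the ray class field of the CM order for the level); `R` is the group of the
subfield of it which belongs to the rational ideles, the degree is at most `b`; complex conjugation
acts on the Galois group as the inversion modulo `R`. -/
structure Groups (K H R : Subgroup Γ) (b : ℕ) : Prop where
  two : K.index = 2
  normalH : H.Normal
  normalR : R.Normal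
  leR : H ≤ R
  leK : R ≤ K
  finite : H.index ≠ 0
  abelian : ∀ x ∈ K, ∀ y ∈ K, x * y * x⁻¹ * y⁻¹ ∈ H
  bounded : H.relIndex R ≤ b
  inversion : ∀ x ∈ K, ∀ τ ∉ K, τ * x * τ⁻¹ * x ∈ R

/-- The group generated by `H` and by the powers with the exponent `2 ^ k` of the elements of `K`. -/
def powers (K H : Subgroup Γ) (k : ℕ) : Subgroup Γ := Subgroup.closure {g | ∃ a ∈ K, g = a ^ 2 ^ k} ⊔ H

/-- The CM points `P` of a modular curve `Y` with the invariant probability measure `m`: `pt` is the
point of `Y`, `K y`, `H y`, `R y` are the groups of `y`, `D y` is the absolute value of the discriminant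
of the CM order. `genus` is genus theory: the class group modulo the powers with the exponent `2 ^ k` is
small. `equidistribution` is the equidistribution of the orbits of the subgroups `V` of the
Galois group over the CM field and the base field for which the number of the classes of the
class group modulo `V` is at most `D ^ η`. -/
structure CMPoints (F : Subgroup Γ) {P Y : Type} [MulAction F P] [TopologicalSpace Y] [MeasurableSpace Y]
    (pt : P → Y) (K H R : P → Subgroup Γ) (D : P → ℕ) (m : Measure Y) (b : ℕ) (η : ℝ) : Prop where
  groups : ∀ y, Groups (K y) (H y) (R y) b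
  conj : ∀ (g : F) (y : P), K (g • y) = K y ∧ H (g • y) = H y ∧ D (g • y) = D y
  fixed : ∀ (y : P) (g : F), (g : Γ) ∈ H y → g • y = y
  few : ∀ B : ℕ, {y | D y ≤ B}.Finite
  genus : ∀ (k : ℕ) (ε : ℝ), 0 < ε → ∃ C : ℝ, ∀ y, ((powers (K y) (H y) k).relIndex (K y) : ℝ) ≤ C * (D y : ℝ) ^ ε
  equidistribution : ∀ φ : Y → ℝ, Continuous φ → HasCompactSupport φ → ∀ ε : ℝ, 0 < ε →
    ∃ D₀ : ℕ, ∀ y, D₀ ≤ D y → ∀ V : Subgroup Γ, V ≤ F ⊓ K y →
      ((V ⊔ H y).relIndex (K y) : ℝ) ≤ (D y : ℝ) ^ η →
        |mean (V.subgroupOf F) y (fun z => φ (pt z)) - ∫ t, φ t ∂m| ≤ ε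

variable {J : Type}

/-- The group of the compositum of the fields of the points `k ∈ S`, `k ≠ j`, which have the same CM
field as the point `j`. -/
def others (K H : J → Subgroup Γ) (S : Finset J) (j : J) : Subgroup Γ :=
  K j ⊓ ⨅ k, ⨅ _ : (k ∈ S ∧ k ≠ j) ∧ K k = K j, H k

/-- The field of the point `j` has little in common with the fields of the points `k ∈ S`, `k ≠ j`,
with the same CM field: the degree of the intersection over the CM field is at most `D ^ η'`. There is
no condition if `j` is the only point in `S` with its CM field. -/
def Apart (K H : J → Subgroup Γ) (D : J → ℕ) (S : Finset J) (j : J) (η' : ℝ) : Prop :=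
  ((others K H S j ⊔ H j).relIndex (K j) : ℝ) ≤ (D j : ℝ) ^ η'

/-- The orbits of the points `x i` of the product under the Galois group of the base field are
equidistributed: the means of the continuous functions with compact support converge to the
integral over the product of the measures `m j`. -/
def Equidistributed (F : Subgroup Γ) [Fintype J] {P Y : J → Type} [∀ j, MulAction F (P j)]
    [∀ j, TopologicalSpace (Y j)] [∀ j, MeasurableSpace (Y j)] (pt : ∀ j, P j → Y j)
    (m : ∀ j, Measure (Y j)) (x : ℕ → ∀ j, P j) : Prop :=
  ∀ f : (∀ j, Y j) → ℝ, Continuous f → HasCompactSupport f →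
    Tendsto (fun i => mean F (x i) fun z => f fun j => pt j (z j)) atTop (𝓝 (∫ y, f y ∂Measure.pi m))

end Pool.Agent.J6H24.EQ
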