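import Pool.Agent.J6H24.EQ.Idx
import Pool.Agent.J6H24.EQ.Stm

/-!
# The group which fixes the points with other fields has small index
-/

set_option autoImplicit false
set_option linter.unusedSectionVars false

namespace Pool.Agent.J6H24.EQ

open Subgroup

variable {Γ : Type} [Group Γ]

/-- the subgroup on which the composition has values in `H` -/
theorem exists_kernel {K H R N : Subgroup Γ} {b : ℕ} (h : Groups K H R b) [N.Normal] (hN : N ≤ K)
    (hNi : N.index ≠ 0) (l : List Γ) {τ : Γ} (hτ : τ ∉ K) (hl : τ ∈ l) :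
    ∃ N' : Subgroup Γ, N' ≤ N ∧ N'.index ≠ 0 ∧ N'.index ≤ b * N.index ∧ ∀ a ∈ N', Psi l a ∈ H := by
  have := h.normalH
  have := h.normalR
  have hKn : K.Normal := Subgroup.normal_of_index_eq_two h.two
  let f : N →* Γ ⧸ H := MonoidHom.mk' (fun a => QuotientGroup.mk' H (Psi l (a : Γ)))
    (fun a c => Psi_mul h.abelian l (hN a.2) (hN c.2))
  have hr : f.range ≤ R.map (QuotientGroup.mk' H) := by
    rintro _ ⟨a, rfl⟩
    exact Subgroup.mem_map_of_mem _ (Psi_R hN hτ h.inversion l hl a.2)
  have h0 : H.relIndex R ≠ 0 := fun hh => h.finite (Subgroup.index_eq_zero_of_relIndex_eq_zero hh)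
  have hfin : Finite (R.map (QuotientGroup.mk' H)) := finite_map h0
  have hc : Nat.card f.range ≤ b := by
    have h1 := Subgroup.relIndex_ker (K := R) (QuotientGroup.mk' H)
    rw [QuotientGroup.ker_mk'] at h1
    refine le_trans ?_ h.bounded
    rw [h1]
    exact Nat.card_le_card_of_injective _ (Subgroup.inclusion_injective hr)
  have hfr : Finite f.range := Finite.of_injective _ (Subgroup.inclusion_injective hr)
  have hk : f.ker.index = Nat.card f.range := Subgroup.index_ker f
  have hi : (f.ker.map N.subtype).index = f.ker.index * N.index := Subgroup.index_map_subtype _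
  refine ⟨f.ker.map N.subtype, ?_, ?_, ?_, ?_⟩
  · rintro _ ⟨a, _, rfl⟩
    exact a.2
  · rw [hi, hk]
    exact Nat.mul_ne_zero Nat.card_pos.ne' hNi
  · rw [hi, hk]
    exact Nat.mul_le_mul_right _ hc
  · rintro _ ⟨a, ha, rfl⟩
    exact (QuotientGroup.eq_one_iff _).1 ha

variable {J : Type} [Fintype J] [DecidableEq J]

/-- the group of the compositum of the fields of the other points with the same CM field -/
def same (K H : J → Subgroup Γ) (T : Finset J) (j : J) : Subgroup Γ :=
  K j ⊓ ⨅ k, ⨅ _ : k ∈ T ∧ K k = K j, H k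

/-- the group which fixes the points `k ∈ T`, in `F` and `K j` -/
def fixing (F : Subgroup Γ) (K H : J → Subgroup Γ) (T : Finset J) (j : J) : Subgroup Γ :=
  F ⊓ K j ⊓ ⨅ k, ⨅ _ : k ∈ T, H k

/-- a constant -/
def cst (n c b : ℕ) : ℕ := (n * 2 * 2 ^ c) * ((b + 1) * (n * 2 * 2 ^ c)) ^ c

theorem index_bound (F : Subgroup Γ) (hF : F.normalCore.index ≠ 0) (K H R : J → Subgroup Γ) (b : ℕ)
    (h : ∀ k, Groups (K k) (H k) (R k) b) (T : Finset J) (j : J) :
    (fixing F K H T j ⊔ H j).relIndex (K j) ≤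
      (powers (K j) (H j) (Fintype.card J)).relIndex (K j) *
        (cst F.normalCore.index (Fintype.card J) b * (same K H T j ⊔ H j).relIndex (K j)) := by
  classical
  have hKn : ∀ k, (K k).Normal := fun k => Subgroup.normal_of_index_eq_two (h k).two
  have hHn : ∀ k, (H k).Normal := fun k => (h k).normalH
  have hHK : ∀ k, H k ≤ K k := fun k => (h k).leR.trans (h k).leK
  have h0 : (H j).relIndex (K j) ≠ 0 := fun hh => (h j).finite (Subgroup.index_eq_zero_of_relIndex_eq_zero hh)
  have hsep : ∀ k, ∃ τ, K k ≠ K j → τ ∈ K j ∧ τ ∉ K k := by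
    intro k
    by_cases hk : K k = K j
    · exact ⟨1, fun h => absurd hk h⟩
    · obtain ⟨τ, h1, h2⟩ := exists_sep (h j).two (h k).two hk
      exact ⟨τ, fun _ => ⟨h1, h2⟩⟩
  choose τ hτ using hsep
  set T' : Finset J := T.filter fun k => K k ≠ K j with hT'
  set l : List Γ := T'.toList.map τ with hl
  have hlen : l.length ≤ Fintype.card J := by
    rw [hl, List.length_map, Finset.length_toList]
    exact Finset.card_le_univ _
  have hlK : ∀ σ ∈ l, σ ∈ K j := by
    intro σ hσ
    obtain ⟨k, hk, rfl⟩ := List.mem_map.1 hσ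
    rw [Finset.mem_toList, Finset.mem_filter] at hk
    exact (hτ k hk.2).1
  set N0 : Subgroup Γ := F.normalCore ⊓ K j ⊓ ⨅ k, K k with hN0
  have hN0n : N0.Normal := by
    have : (⨅ k, K k).Normal := Subgroup.normal_iInf_normal hKn
    infer_instance
  set n0 := F.normalCore.index * 2 * 2 ^ Fintype.card J with hn0
  have hi0 : N0.index ≠ 0 := by
    refine Subgroup.index_inf_ne_zero (Subgroup.index_inf_ne_zero hF ?_) ?_
    · rw [(h j).two]; norm_num
    · exact Subgroup.index_iInf_ne_zero fun k => by rw [(h k).two]; norm_num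
  have hi1 : N0.index ≤ n0 := by
    refine (Subgroup.index_inf_le).trans (Nat.mul_le_mul ((Subgroup.index_inf_le).trans ?_) ?_)
    · rw [(h j).two]
    · refine (Subgroup.index_iInf_le _).trans ?_
      rw [Finset.prod_congr rfl fun k _ => (h k).two, Finset.prod_const, Finset.card_univ]
  have hn1 : 1 ≤ n0 := le_trans (Nat.one_le_iff_ne_zero.2 hi0) hi1
  have hker : ∀ k, ∃ N' : Subgroup Γ, N'.index ≠ 0 ∧ N'.index ≤ (b + 1) * n0 ∧
      (k ∈ T' → ∀ a ∈ N', Psi l a ∈ H k) := by
    intro k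
    by_cases hk : k ∈ T'
    · have hk' := (Finset.mem_filter.1 hk).2
      have hN0k : N0 ≤ K k := inf_le_right.trans (iInf_le _ k)
      obtain ⟨N', _, h2, h3, h4⟩ := exists_kernel (h k) hN0k hi0 l (hτ k hk').2
        (List.mem_map_of_mem (Finset.mem_toList.2 hk))
      refine ⟨N', h2, h3.trans ?_, fun _ => h4⟩
      exact Nat.mul_le_mul (Nat.le_succ _) hi1
    · refine ⟨⊤, by rw [Subgroup.index_top]; norm_num, ?_, fun h => absurd h hk⟩
      rw [Subgroup.index_top]
      exact Nat.one_le_iff_ne_zero.2 (Nat.mul_ne_zero (Nat.succ_ne_zero _) (by omega))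
  choose N' hN1 hN2 hN3 using hker
  set N1 : Subgroup Γ := N0 ⊓ ⨅ k, N' k with hN1d
  have hi2 : N1.index ≠ 0 := Subgroup.index_inf_ne_zero hi0 (Subgroup.index_iInf_ne_zero hN1)
  have hi3 : N1.index ≤ cst F.normalCore.index (Fintype.card J) b := by
    refine (Subgroup.index_inf_le).trans (Nat.mul_le_mul hi1 ?_)
    refine (Subgroup.index_iInf_le _).trans ?_
    refine (Finset.prod_le_prod' fun k _ => hN2 k).trans ?_
    rw [Finset.prod_const, Finset.card_univ]
  set O := same K H T j with hO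
  have hOK : O ≤ K j := inf_le_left
  have hfix : ∀ a ∈ N1 ⊓ O, Psi l a ∈ fixing F K H T j := by
    intro a ha
    have ha0 : a ∈ N0 := ha.1.1
    have hp0 : Psi l a ∈ N0 := Psi_mem l ha0
    refine Subgroup.mem_inf.2 ⟨Subgroup.mem_inf.2 ⟨F.normalCore_le hp0.1.1, hp0.1.2⟩, ?_⟩
    rw [Subgroup.mem_iInf]
    intro k
    rw [Subgroup.mem_iInf]
    intro hk
    by_cases hkj : K k = K j
    · have := (Subgroup.mem_inf.1 (Subgroup.mem_inf.1 ha).2).2
      rw [Subgroup.mem_iInf] at this
      have := this k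
      rw [Subgroup.mem_iInf] at this
      exact Psi_mem l (this ⟨hk, hkj⟩)
    · have := (Subgroup.mem_inf.1 (Subgroup.mem_inf.1 ha).1).2
      rw [Subgroup.mem_iInf] at this
      exact hN3 k (Finset.mem_filter.2 ⟨hk, hkj⟩) a (this k)
  have hp := power_bound (V := fixing F K H T j) (W := N1 ⊓ O) (hHK j) h0 (h j).abelian (2 ^ l.length)
    (inf_le_right.trans hOK) (fun a ha => ⟨Psi l a, hfix a ha, Psi_pow (h j).abelian l hlK (hOK ha.2)⟩)
  refine hp.trans (Nat.mul_le_mul ?_ ?_)
  · refine Subgroup.relIndex_le_of_le_left ?_ ?_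
    · refine sup_le_sup_right ?_ _
      rw [Subgroup.closure_le]
      rintro _ ⟨a, ha, rfl⟩
      refine Subgroup.subset_closure ⟨a ^ 2 ^ (Fintype.card J - l.length), Subgroup.pow_mem _ ha _, ?_⟩
      rw [← pow_mul, ← pow_add, Nat.sub_add_cancel hlen]
    · intro hh
      exact h0 (Subgroup.relIndex_eq_zero_of_le_left le_sup_right hh)
  · exact (inf_bound (hHK j) h0 hOK hi2).trans (Nat.mul_le_mul_right _ hi3)

end Pool.Agent.J6H24.EQ
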