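import Pool.Agent.J6H24.EQ.Stm

/-!
# Means over finite orbits
-/

set_option autoImplicit false
set_option linter.unusedSectionVars false

namespace Pool.Agent.J6H24.EQ

open MulAction

variable {G : Type} [Group G] {P : Type} [MulAction G P] {x : P}

theorem mean_eq (h : (orbit G x).Finite) (φ : P → ℝ) :
    mean G x φ = (∑ z ∈ h.toFinset, φ z) / h.toFinset.card := by
  rw [mean, finsum_mem_eq_finite_toFinset_sum φ h, Set.ncard_eq_toFinset_card _ h]

theorem card_pos (h : (orbit G x).Finite) : (0 : ℝ) < h.toFinset.card := by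
  have : 0 < h.toFinset.card := Finset.card_pos.2 ⟨x, h.mem_toFinset.2 (mem_orbit_self x)⟩
  exact_mod_cast this

theorem mean_congr {φ ψ : P → ℝ} (h : ∀ z ∈ orbit G x, φ z = ψ z) : mean G x φ = mean G x ψ := by
  unfold mean
  rw [finsum_mem_congr rfl h]

theorem mean_orbit {y : P} (h : y ∈ orbit G x) (φ : P → ℝ) : mean G y φ = mean G x φ := by
  unfold mean
  rw [orbit_eq_iff.2 h]

theorem mean_add (h : (orbit G x).Finite) (φ ψ : P → ℝ) :
    mean G x (fun z => φ z + ψ z) = mean G x φ + mean G x ψ := by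
  rw [mean_eq h, mean_eq h, mean_eq h, Finset.sum_add_distrib, add_div]

theorem mean_sum (h : (orbit G x).Finite) {ι : Type} (s : Finset ι) (φ : ι → P → ℝ) :
    mean G x (fun z => ∑ i ∈ s, φ i z) = ∑ i ∈ s, mean G x (φ i) := by
  rw [mean_eq h, Finset.sum_comm, Finset.sum_div]
  exact Finset.sum_congr rfl fun i _ => (mean_eq h _).symm

theorem mean_mul (h : (orbit G x).Finite) (c : ℝ) (φ : P → ℝ) :
    mean G x (fun z => c * φ z) = c * mean G x φ := by
  rw [mean_eq h, mean_eq h, ← Finset.mul_sum, mul_div_assoc]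

theorem mean_const (h : (orbit G x).Finite) (c : ℝ) : mean G x (fun _ => c) = c := by
  rw [mean_eq h, Finset.sum_const, nsmul_eq_mul, mul_comm, mul_div_assoc, div_self (card_pos h).ne', mul_one]

theorem mean_le (h : (orbit G x).Finite) {φ ψ : P → ℝ} (hφ : ∀ z ∈ orbit G x, φ z ≤ ψ z) :
    mean G x φ ≤ mean G x ψ := by
  rw [mean_eq h, mean_eq h]
  refine div_le_div_of_nonneg_right (Finset.sum_le_sum fun z hz => hφ z (h.mem_toFinset.1 hz)) (card_pos h).le

theorem abs_mean_le (h : (orbit G x).Finite) (φ : P → ℝ) : |mean G x φ| ≤ mean G x (fun z => |φ z|) := by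
  rw [mean_eq h, mean_eq h, abs_div, abs_of_pos (card_pos h)]
  exact div_le_div_of_nonneg_right (Finset.abs_sum_le_sum_abs _ _) (card_pos h).le

theorem abs_mean_le_of_le (h : (orbit G x).Finite) {φ : P → ℝ} {c : ℝ} (hφ : ∀ z ∈ orbit G x, |φ z| ≤ c) :
    |mean G x φ| ≤ c :=
  (abs_mean_le h φ).trans ((mean_le h hφ).trans (mean_const h c).le)

/-- the mean over an orbit of a subgroup of the means over the orbits of the subgroup -/
theorem mean_tower (V : Subgroup G) (h : (orbit G x).Finite) (φ : P → ℝ) :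
    mean G x (fun z => mean V z φ) = mean G x φ := by
  classical
  have hsub : ∀ z ∈ orbit G x, orbit V z ⊆ orbit G x := by
    intro z hz w hw
    obtain ⟨v, rfl⟩ := hw
    obtain ⟨g, rfl⟩ := hz
    exact ⟨(v : G) * g, by simp [mul_smul, Subgroup.smul_def]⟩
  have hfin : ∀ z ∈ orbit G x, (orbit V z).Finite := fun z hz => h.subset (hsub z hz)
  rw [mean_eq h, mean_eq h]
  congr 1
  have h1 : ∀ z ∈ h.toFinset, mean V z φ =
      ∑ w ∈ h.toFinset, if w ∈ orbit V z then φ w / (orbit V z).ncard else 0 := by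
    intro z hz
    have hz' := h.mem_toFinset.1 hz
    have hf := hfin z hz'
    rw [← Finset.sum_filter, ← Finset.sum_div, mean_eq hf, Set.ncard_eq_toFinset_card _ hf]
    congr 1
    refine Finset.sum_congr ?_ fun _ _ => rfl
    ext w
    simp only [Set.Finite.mem_toFinset, Finset.mem_filter]
    exact ⟨fun hw => ⟨hsub z hz' hw, hw⟩, fun hw => hw.2⟩
  rw [Finset.sum_congr rfl h1, Finset.sum_comm]
  refine Finset.sum_congr rfl fun w hw => ?_
  have hw' := h.mem_toFinset.1 hw
  have hf := hfin w hw'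
  have h2 : ∀ z ∈ h.toFinset, (if w ∈ orbit V z then φ w / (orbit V z).ncard else 0) =
      if z ∈ orbit V w then φ w / (orbit V w).ncard else 0 := by
    intro z _
    by_cases hz : w ∈ orbit V z
    · rw [if_pos hz, if_pos (mem_orbit_symm.1 hz), orbit_eq_iff.2 hz]
    · rw [if_neg hz, if_neg fun h => hz (mem_orbit_symm.1 h)]
  rw [Finset.sum_congr rfl h2, ← Finset.sum_filter, Finset.sum_const, nsmul_eq_mul]
  have h3 : (h.toFinset.filter fun z => z ∈ orbit V w) = hf.toFinset := by
    ext z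
    simp only [Set.Finite.mem_toFinset, Finset.mem_filter]
    exact ⟨fun hz => hz.2, fun hz => ⟨hsub w hw' hz, hz⟩⟩
  rw [h3, Set.ncard_eq_toFinset_card _ hf, mul_div_assoc', mul_comm, mul_div_assoc, div_self (card_pos hf).ne',
    mul_one]

/-- means and equivariant maps -/
theorem mean_map {P' : Type} [MulAction G P'] (h : (orbit G x).Finite) (f : P → P')
    (hf : ∀ (g : G) z, f (g • z) = g • f z) (φ : P' → ℝ) :
    mean G x (fun z => φ (f z)) = mean G (f x) φ := by
  classical
  have him : orbit G (f x) = f '' orbit G x := by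
    ext w
    constructor
    · rintro ⟨g, rfl⟩
      exact ⟨g • x, mem_orbit _ _, hf g x⟩
    · rintro ⟨_, ⟨g, rfl⟩, rfl⟩
      exact ⟨g, (hf g x).symm⟩
  have h' : (orbit G (f x)).Finite := by rw [him]; exact h.image f
  rw [mean_eq h, mean_eq h']
  have hmaps : ∀ z ∈ h.toFinset, f z ∈ h'.toFinset := by
    intro z hz
    rw [h'.mem_toFinset, him]
    exact ⟨z, h.mem_toFinset.1 hz, rfl⟩
  set c := (h.toFinset.filter fun z => f z = f x).card with hc
  have hfib : ∀ u ∈ h'.toFinset, (h.toFinset.filter fun z => f z = u).card = c := by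
    intro u hu
    obtain ⟨g, rfl⟩ := h'.mem_toFinset.1 hu
    refine (Finset.card_bij (fun z _ => g • z) ?_ ?_ ?_).symm
    · intro z hz
      rw [Finset.mem_filter, h.mem_toFinset] at hz ⊢
      refine ⟨?_, by rw [hf, hz.2]⟩
      obtain ⟨k, hk⟩ := hz.1
      exact ⟨g * k, by rw [← hk]; simp [mul_smul]⟩
    · intro z _ w _ hzw
      exact MulAction.injective g hzw
    · intro w hw
      rw [Finset.mem_filter, h.mem_toFinset] at hw
      refine ⟨g⁻¹ • w, ?_, by simp⟩
      rw [Finset.mem_filter, h.mem_toFinset]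
      refine ⟨?_, by rw [hf, hw.2]; simp⟩
      obtain ⟨k, hk⟩ := hw.1
      exact ⟨g⁻¹ * k, by rw [← hk]; simp [mul_smul]⟩
  have h1 : ∑ z ∈ h.toFinset, φ (f z) = c * ∑ u ∈ h'.toFinset, φ u := by
    rw [← Finset.sum_fiberwise_of_maps_to hmaps, Finset.mul_sum]
    refine Finset.sum_congr rfl fun u hu => ?_
    rw [Finset.sum_congr rfl fun z hz => by rw [(Finset.mem_filter.1 hz).2], Finset.sum_const, nsmul_eq_mul,
      hfib u hu]
  have h2 : (h.toFinset.card : ℝ) = c * h'.toFinset.card := by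
    rw [Finset.card_eq_sum_card_fiberwise hmaps]
    push_cast
    rw [Finset.sum_congr rfl fun u hu => by rw [hfib u hu], Finset.sum_const, nsmul_eq_mul, mul_comm]
  have hc0 : (c : ℝ) ≠ 0 := by
    intro h0
    rw [h0, zero_mul] at h2
    exact (card_pos h).ne' h2
  rw [h1, h2, mul_div_mul_left _ _ hc0]

end Pool.Agent.J6H24.EQ
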