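import Pool.Agent.J6H24.EQ.Bd
import Pool.Agent.J6H24.EQ.Mean
import Pool.Agent.J6H24.EQ.SW

/-!
# Equidistribution of the orbits on the product
-/

set_option autoImplicit false
set_option linter.unusedSectionVars false

namespace Pool.Agent.J6H24.EQ

open MulAction MeasureTheory Filter Topology

variable {Γ : Type} [Group Γ] {F : Subgroup Γ} {J : Type} [Fintype J] [DecidableEq J] {P Y : J → Type}
  [∀ j, MulAction F (P j)] [∀ j, TopologicalSpace (Y j)] [∀ j, MeasurableSpace (Y j)]
  {pt : ∀ j, P j → Y j} {K H R : ∀ j, P j → Subgroup Γ} {D : ∀ j, P j → ℕ} {m : ∀ j, Measure (Y j)}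
  {b : ℕ} {η : ℝ}

theorem orbit_finite_one (hP : ∀ j, CMPoints F (pt j) (K j) (H j) (R j) (D j) (m j) b η) (j : J) (y : P j) :
    (orbit F y).Finite := by
  have h1 : (H j y).subgroupOf F ≤ stabilizer F y := fun g hg => (hP j).fixed y g hg
  have h2 : ((H j y).subgroupOf F).index ≠ 0 :=
    fun hh => ((hP j).groups y).finite (Subgroup.index_eq_zero_of_relIndex_eq_zero hh)
  have h3 : (stabilizer F y).index ≠ 0 := by
    intro h0
    have := Subgroup.index_dvd_of_le h1
    rw [h0] at this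
    exact h2 (Nat.eq_zero_of_zero_dvd this)
  rw [MulAction.index_stabilizer] at h3
  exact Set.finite_of_ncard_ne_zero h3

theorem orbit_finite (hP : ∀ j, CMPoints F (pt j) (K j) (H j) (R j) (D j) (m j) b η) (x : ∀ j, P j) :
    (orbit F x).Finite := by
  refine (Set.Finite.pi' fun j => orbit_finite_one hP j (x j)).subset ?_
  rintro _ ⟨g, rfl⟩ j
  exact ⟨g, rfl⟩

/-- the estimate at a point of the product -/
theorem key (hP : ∀ j, CMPoints F (pt j) (K j) (H j) (R j) (D j) (m j) b η) (x : ∀ j, P j) (S : Finset J)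
    (j : J) (hj : j ∈ S) (a : ∀ j, Y j → ℝ) {C : ℝ} (hC : ∀ k t, |a k t| ≤ C) {ε : ℝ}
    (h : ∀ y ∈ orbit F (x j), |mean ((fixing F (fun k => K k (x k)) (fun k => H k (x k)) (S.erase j)
      j).subgroupOf F) y (fun t => a j (pt j t))| ≤ ε) :
    |mean F x (fun z => ∏ k ∈ S, a k (pt k (z k)))| ≤ C ^ (S.erase j).card * ε := by
  set V := (fixing F (fun k => K k (x k)) (fun k => H k (x k)) (S.erase j) j).subgroupOf F with hV
  have hfin := orbit_finite hP x
  rw [← mean_tower V hfin]
  refine abs_mean_le_of_le hfin fun z hz => ?_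
  have hzf : (orbit V z).Finite := by
    refine (orbit_finite hP z).subset ?_
    rintro _ ⟨v, rfl⟩
    exact ⟨(v : F), rfl⟩
  have hH : ∀ k, H k (z k) = H k (x k) := by
    obtain ⟨g, rfl⟩ := hz
    intro k
    exact ((hP k).conj g (x k)).2.1
  have hfix : ∀ w ∈ orbit V z, ∀ k ∈ S.erase j, w k = z k := by
    rintro _ ⟨v, rfl⟩ k hk
    refine (hP k).fixed (z k) (v : F) ?_
    rw [hH]
    have hv : ((v : F) : Γ) ∈ fixing F (fun k => K k (x k)) (fun k => H k (x k)) (S.erase j) j :=
      Subgroup.mem_subgroupOf.1 v.2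
    have := (Subgroup.mem_inf.1 hv).2
    rw [Subgroup.mem_iInf] at this
    have := this k
    rw [Subgroup.mem_iInf] at this
    exact this hk
  have e1 : mean V z (fun w => ∏ k ∈ S, a k (pt k (w k))) =
      mean V z (fun w => (∏ k ∈ S.erase j, a k (pt k (z k))) * a j (pt j (w j))) := by
    refine mean_congr fun w hw => ?_
    show ∏ k ∈ S, a k (pt k (w k)) = _
    rw [← Finset.mul_prod_erase S _ hj, mul_comm]
    congr 1
    exact Finset.prod_congr rfl fun k hk => by rw [hfix w hw k hk]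
  rw [e1, mean_mul hzf (∏ k ∈ S.erase j, a k (pt k (z k))) (fun w => a j (pt j (w j))), abs_mul]
  have e2 : mean V z (fun w => a j (pt j (w j))) = mean V (z j) (fun t => a j (pt j t)) :=
    mean_map hzf (fun w : ∀ j, P j => w j) (fun _ _ => rfl) (fun t => a j (pt j t))
  rw [e2]
  have e3 : |∏ k ∈ S.erase j, a k (pt k (z k))| ≤ C ^ (S.erase j).card := by
    rw [Finset.abs_prod, ← Finset.prod_const]
    exact Finset.prod_le_prod (fun k _ => abs_nonneg _) fun k _ => hC k _
  have e4 := h (z j) (by obtain ⟨g, rfl⟩ := hz; exact ⟨g, rfl⟩)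
  exact mul_le_mul e3 e4 (abs_nonneg _) ((abs_nonneg _).trans e3)

theorem large (hP : ∀ j, CMPoints F (pt j) (K j) (H j) (R j) (D j) (m j) b η) (x : ℕ → ∀ j, P j)
    (hx : ∀ j (y : P j), {i | x i j = y}.Finite) (B : ℕ) (j : J) : ∀ᶠ i in atTop, B < D j (x i j) := by
  have h1 : {i | D j (x i j) ≤ B}.Finite := by
    have h2 := Set.Finite.biUnion ((hP j).few B) (t := fun y => {i | x i j = y}) fun y _ => hx j y
    refine h2.subset fun i hi => ?_
    exact Set.mem_biUnion (x := x i j) hi rfl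
  have h3 := h1.eventually_cofinite_notMem
  rw [Nat.cofinite_eq_atTop] at h3
  exact h3.mono fun i hi => not_le.1 hi

theorem exists_large {e C : ℝ} (he : 0 < e) : ∃ D₀ : ℕ, ∀ D : ℕ, D₀ ≤ D → C ≤ (D : ℝ) ^ e := by
  have h := (tendsto_rpow_atTop he).comp (tendsto_natCast_atTop_atTop (R := ℝ))
  obtain ⟨D₀, h0⟩ := eventually_atTop.1 (h.eventually_ge_atTop C)
  exact ⟨D₀, h0⟩

theorem index_small (hF : F.normalCore.index ≠ 0)
    (hP : ∀ j, CMPoints F (pt j) (K j) (H j) (R j) (D j) (m j) b η) {η' : ℝ} (hη : η' < η) (j : J) :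
    ∃ D₀ : ℕ, ∀ x : ∀ j, P j, D₀ < D j (x j) → ∀ S : Finset J,
      Apart (fun k => K k (x k)) (fun k => H k (x k)) (fun k => D k (x k)) S j η' →
      ((fixing F (fun k => K k (x k)) (fun k => H k (x k)) (S.erase j) j ⊔ H j (x j)).relIndex
        (K j (x j)) : ℝ) ≤ (D j (x j) : ℝ) ^ η := by
  have he : 0 < (η - η') / 2 := by linarith
  obtain ⟨C, hC⟩ := (hP j).genus (Fintype.card J) _ he
  obtain ⟨D₀, h0⟩ := exists_large (C := C * cst F.normalCore.index (Fintype.card J) b) he
  refine ⟨D₀, fun x hx S hA => ?_⟩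
  have hD : 0 < (D j (x j) : ℝ) := by
    have : 0 < D j (x j) := by omega
    exact_mod_cast this
  have h1 := index_bound F hF (fun k => K k (x k)) (fun k => H k (x k)) (fun k => R k (x k)) b
    (fun k => (hP k).groups (x k)) (S.erase j) j
  have h2 : same (fun k => K k (x k)) (fun k => H k (x k)) (S.erase j) j =
      others (fun k => K k (x k)) (fun k => H k (x k)) S j := by
    unfold same others
    congr 1
    refine iInf_congr fun k => iInf_congr_Prop ?_ fun _ => rfl
    rw [Finset.mem_erase, and_comm (a := k ≠ j)]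
  rw [h2] at h1
  have h3 := hC (x j)
  have h4 := h0 _ hx.le
  set d := (D j (x j) : ℝ) with hd
  set e := (η - η') / 2 with hee
  have h5 : d ^ η = d ^ e * d ^ e * d ^ η' := by
    rw [← Real.rpow_add hD, ← Real.rpow_add hD]
    congr 1
    rw [hee]; ring
  have h6 : (((fixing F (fun k => K k (x k)) (fun k => H k (x k)) (S.erase j) j ⊔ H j (x j)).relIndex
        (K j (x j)) : ℕ) : ℝ) ≤ ((powers (K j (x j)) (H j (x j)) (Fintype.card J)).relIndex (K j (x j)) : ℝ) *
        ((cst F.normalCore.index (Fintype.card J) b : ℝ) *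
          ((others (fun k => K k (x k)) (fun k => H k (x k)) S j ⊔ H j (x j)).relIndex (K j (x j)) : ℝ)) := by
    exact_mod_cast h1
  refine h6.trans ?_
  rw [h5]
  have hA' : ((others (fun k => K k (x k)) (fun k => H k (x k)) S j ⊔ H j (x j)).relIndex (K j (x j)) : ℝ) ≤
      d ^ η' := hA
  have hd1 : 0 ≤ d ^ e := Real.rpow_nonneg hD.le _
  have hd2 : 0 ≤ d ^ η' := Real.rpow_nonneg hD.le _
  have hc : (0 : ℝ) ≤ cst F.normalCore.index (Fintype.card J) b := Nat.cast_nonneg _
  calc _ ≤ (C * d ^ e) * ((cst F.normalCore.index (Fintype.card J) b : ℝ) * d ^ η') :=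
        mul_le_mul h3 (mul_le_mul_of_nonneg_left hA' hc) (mul_nonneg hc (Nat.cast_nonneg _))
          ((Nat.cast_nonneg _).trans h3)
    _ = (C * cst F.normalCore.index (Fintype.card J) b) * (d ^ e * d ^ η') := by ring
    _ ≤ d ^ e * (d ^ e * d ^ η') := mul_le_mul_of_nonneg_right h4 (mul_nonneg hd1 hd2)
    _ = d ^ e * d ^ e * d ^ η' := by ring

theorem tends_zero (hF : F.normalCore.index ≠ 0)
    (hP : ∀ j, CMPoints F (pt j) (K j) (H j) (R j) (D j) (m j) b η) {η' : ℝ} (hη : η' < η)
    (x : ℕ → ∀ j, P j) (hx : ∀ j (y : P j), {i | x i j = y}.Finite) (φ : ∀ j, Y j → ℝ)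
    (hφ : ∀ j, Continuous (φ j) ∧ HasCompactSupport (φ j)) (S : Finset J)
    (hS : ∀ᶠ i in atTop, ∃ j ∈ S,
      Apart (fun k => K k (x i k)) (fun k => H k (x i k)) (fun k => D k (x i k)) S j η') :
    Tendsto (fun i => mean F (x i) (fun z => ∏ k ∈ S, (φ k (pt k (z k)) - ∫ t, φ k t ∂m k))) atTop (𝓝 0) := by
  have hb : ∀ k, ∃ C : ℝ, ∀ t, |φ k t - ∫ t, φ k t ∂m k| ≤ C := by
    intro k
    obtain ⟨C, hC⟩ := (hφ k).2.exists_bound_of_continuous (hφ k).1
    refine ⟨C + |∫ t, φ k t ∂m k|, fun t => (abs_sub _ _).trans ?_⟩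
    have := hC t
    rw [Real.norm_eq_abs] at this
    linarith
  choose C hC using hb
  obtain ⟨C', hC1, hC2⟩ : ∃ C' : ℝ, 1 ≤ C' ∧ ∀ k t, |φ k t - ∫ t, φ k t ∂m k| ≤ C' := by
    refine ⟨1 + ∑ k, |C k|, ?_, fun k t => ?_⟩
    · have : 0 ≤ ∑ k, |C k| := Finset.sum_nonneg fun k _ => abs_nonneg _
      linarith
    · have h1 : |C k| ≤ ∑ k, |C k| := Finset.single_le_sum (f := fun k => |C k|) (fun k _ => abs_nonneg _) (Finset.mem_univ k)
      have h2 := hC k t
      have h3 := le_abs_self (C k)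
      linarith
  rw [Metric.tendsto_nhds]
  intro ε hε
  have hε' : 0 < ε / (2 * C' ^ Fintype.card J) := by positivity
  have h1 := fun j => (hP j).equidistribution (φ j) (hφ j).1 (hφ j).2 _ hε'
  choose D1 hD1 using h1
  have h2 := fun j => index_small hF hP hη j
  choose D2 hD2 using h2
  have h3 : ∀ᶠ i in atTop, ∀ j, max (D1 j) (D2 j) < D j (x i j) :=
    eventually_all.2 fun j => large hP x hx _ j
  filter_upwards [h3, hS] with i hi hSi
  obtain ⟨j, hj, hA⟩ := hSi
  have hi' := hi j
  have hi1 : D2 j < D j (x i j) := lt_of_le_of_lt (le_max_right _ _) hi'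
  have hi2 : D1 j ≤ D j (x i j) := (le_max_left _ _).trans hi'.le
  have h4 := hD2 j (x i) hi1 S hA
  have h5 := key hP (x i) S j hj (fun k t => φ k t - ∫ t, φ k t ∂m k) hC2
    (ε := ε / (2 * C' ^ Fintype.card J)) (by
      intro y hy
      set V := fixing F (fun k => K k (x i k)) (fun k => H k (x i k)) (S.erase j) j with hV
      have hKHD : K j y = K j (x i j) ∧ H j y = H j (x i j) ∧ D j y = D j (x i j) := by
        obtain ⟨g, rfl⟩ := hy
        exact (hP j).conj g (x i j)
      have h6 := hD1 j y (by rw [hKHD.2.2]; exact hi2) V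
        (by
          have : V ≤ F ⊓ K j (x i j) := inf_le_left
          rw [hKHD.1]; exact this)
        (by rw [hKHD.1, hKHD.2.1, hKHD.2.2]; exact h4)
      have hyf : (orbit (V.subgroupOf F) y).Finite := by
        refine (orbit_finite_one hP j y).subset ?_
        rintro _ ⟨v, rfl⟩
        exact ⟨(v : F), rfl⟩
      have h7 : mean (V.subgroupOf F) y (fun t => φ j (pt j t) - ∫ t, φ j t ∂m j) =
          mean (V.subgroupOf F) y (fun t => φ j (pt j t)) - ∫ t, φ j t ∂m j := by
        have := mean_add hyf (fun t => φ j (pt j t)) (fun _ => - ∫ t, φ j t ∂m j)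
        rw [mean_const hyf] at this
        simpa only [sub_eq_add_neg] using this
      show |mean (V.subgroupOf F) y (fun t => φ j (pt j t) - ∫ t, φ j t ∂m j)| ≤ _
      rw [h7]
      exact h6)
  rw [Real.dist_eq, sub_zero]
  refine lt_of_le_of_lt h5 ?_
  have h8 : C' ^ (S.erase j).card ≤ C' ^ Fintype.card J := pow_le_pow_right₀ hC1 (Finset.card_le_univ _)
  have h9 : 0 < C' ^ Fintype.card J := by positivity
  calc C' ^ (S.erase j).card * (ε / (2 * C' ^ Fintype.card J))
      ≤ C' ^ Fintype.card J * (ε / (2 * C' ^ Fintype.card J)) := mul_le_mul_of_nonneg_right h8 hε'.le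
    _ = ε / 2 := by field_simp
    _ < ε := by linarith

/-- the convergence for products of functions, from the convergence for all nonempty sets of coordinates -/
theorem tends_prod (hP : ∀ j, CMPoints F (pt j) (K j) (H j) (R j) (D j) (m j) b η)
    (x : ℕ → ∀ j, P j) (φ : ∀ j, Y j → ℝ)
    (h : ∀ S : Finset J, S.Nonempty →
      Tendsto (fun i => mean F (x i) (fun z => ∏ k ∈ S, (φ k (pt k (z k)) - ∫ t, φ k t ∂m k))) atTop (𝓝 0)) :
    Tendsto (fun i => mean F (x i) (fun z => ∏ k, φ k (pt k (z k)))) atTop (𝓝 (∏ k, ∫ t, φ k t ∂m k)) := by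
  classical
  have e1 : ∀ i, mean F (x i) (fun z => ∏ k, φ k (pt k (z k))) =
      ∑ S ∈ (Finset.univ : Finset J).powerset, (∏ k ∈ Finset.univ \ S, ∫ t, φ k t ∂m k) *
        mean F (x i) (fun z => ∏ k ∈ S, (φ k (pt k (z k)) - ∫ t, φ k t ∂m k)) := by
    intro i
    have hf := orbit_finite hP (x i)
    have e2 : (fun z : ∀ j, P j => ∏ k, φ k (pt k (z k))) = fun z =>
        ∑ S ∈ (Finset.univ : Finset J).powerset, (∏ k ∈ Finset.univ \ S, ∫ t, φ k t ∂m k) *
          ∏ k ∈ S, (φ k (pt k (z k)) - ∫ t, φ k t ∂m k) := by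
      funext z
      have := Finset.prod_add (fun k => φ k (pt k (z k)) - ∫ t, φ k t ∂m k) (fun k => ∫ t, φ k t ∂m k)
        (Finset.univ : Finset J)
      simp only [sub_add_cancel] at this
      rw [this]
      exact Finset.sum_congr rfl fun S _ => mul_comm _ _
    rw [e2, mean_sum hf]
    exact Finset.sum_congr rfl fun S _ => mean_mul hf _ _
  rw [funext e1]
  have e3 : (∏ k, ∫ t, φ k t ∂m k) = ∑ S ∈ (Finset.univ : Finset J).powerset,
      (∏ k ∈ Finset.univ \ S, ∫ t, φ k t ∂m k) * (if S = ∅ then 1 else 0) := by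
    rw [Finset.sum_eq_single ∅]
    · simp
    · intro S _ hS
      rw [if_neg hS, mul_zero]
    · intro h
      exact absurd (Finset.empty_mem_powerset _) h
  rw [e3]
  refine tendsto_finsetSum _ fun S _ => Tendsto.const_mul _ ?_
  by_cases hS : S = ∅
  · subst hS
    rw [if_pos rfl]
    have : (fun i => mean F (x i) (fun z => ∏ k ∈ (∅ : Finset J), (φ k (pt k (z k)) - ∫ t, φ k t ∂m k))) =
        fun _ => 1 := by
      funext i
      simp only [Finset.prod_empty]
      exact mean_const (orbit_finite hP (x i)) 1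
    rw [this]
    exact tendsto_const_nhds
  · rw [if_neg hS]
    exact h S (Finset.nonempty_iff_ne_empty.2 hS)

/-- the convergence for all functions, from the convergence for products -/
theorem equidistributed_of_prod [∀ j, LocallyCompactSpace (Y j)] [∀ j, T2Space (Y j)]
    [∀ j, SecondCountableTopology (Y j)] [∀ j, BorelSpace (Y j)] [∀ j, IsProbabilityMeasure (m j)]
    (hP : ∀ j, CMPoints F (pt j) (K j) (H j) (R j) (D j) (m j) b η) (x : ℕ → ∀ j, P j)
    (h : ∀ φ : ∀ j, Y j → ℝ, (∀ j, Continuous (φ j) ∧ HasCompactSupport (φ j)) →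
      Tendsto (fun i => mean F (x i) (fun z => ∏ k, φ k (pt k (z k)))) atTop (𝓝 (∏ k, ∫ t, φ k t ∂m k))) :
    Equidistributed F pt m x := by
  have hspan : ∀ g ∈ Submodule.span ℝ (Prods Y), Integrable g (Measure.pi m) ∧
      Tendsto (fun i => mean F (x i) fun z => g fun j => pt j (z j)) atTop (𝓝 (∫ y, g y ∂Measure.pi m)) := by
    intro g hg
    induction hg using Submodule.span_induction with
    | mem g hg =>
      obtain ⟨φ, hφ, rfl⟩ := hg
      have hi : ∀ j, Integrable (φ j) (m j) := fun j => (hφ j).1.integrable_of_hasCompactSupport (hφ j).2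
      refine ⟨Integrable.fintype_prod_dep hi, ?_⟩
      have e : ∫ y, (∏ j, φ j (y j)) ∂Measure.pi m = ∏ j, ∫ t, φ j t ∂m j :=
        integral_fintype_prod_eq_prod _
      show Tendsto _ _ (𝓝 (∫ y, (∏ j, φ j (y j)) ∂Measure.pi m))
      rw [e]
      exact h φ hφ
    | zero =>
      refine ⟨integrable_zero _ _ _, ?_⟩
      have e : (fun i => mean F (x i) fun z => (0 : (∀ j, Y j) → ℝ) fun j => pt j (z j)) = fun _ => 0 := by
        funext i
        exact mean_const (orbit_finite hP (x i)) 0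
      rw [e]
      simp
    | add g g' _ _ h1 h2 =>
      refine ⟨h1.1.add h2.1, ?_⟩
      have e : (fun i => mean F (x i) fun z => (g + g') fun j => pt j (z j)) =
          fun i => (mean F (x i) fun z => g fun j => pt j (z j)) + mean F (x i) fun z => g' fun j => pt j (z j) := by
        funext i
        exact mean_add (orbit_finite hP (x i)) _ _
      rw [e]
      have e2 : ∫ y, (g + g') y ∂Measure.pi m = ∫ y, g y ∂Measure.pi m + ∫ y, g' y ∂Measure.pi m :=
        integral_add h1.1 h2.1
      rw [e2]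
      exact h1.2.add h2.2
    | smul c g _ h1 =>
      refine ⟨h1.1.smul c, ?_⟩
      have e : (fun i => mean F (x i) fun z => (c • g) fun j => pt j (z j)) =
          fun i => c * (mean F (x i) fun z => g fun j => pt j (z j)) := by
        funext i
        exact mean_mul (orbit_finite hP (x i)) _ _
      rw [e]
      have e2 : ∫ y, (c • g) y ∂Measure.pi m = c * ∫ y, g y ∂Measure.pi m := integral_const_mul _ _
      rw [e2]
      exact h1.2.const_mul c
  intro f hf hc
  rw [Metric.tendsto_nhds]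
  intro ε hε
  obtain ⟨g, hg, hfg⟩ := dense_prods hf hc (ε := ε / 4) (by linarith)
  obtain ⟨hgi, hgt⟩ := hspan g hg
  have hfi : Integrable f (Measure.pi m) := hf.integrable_of_hasCompactSupport hc
  rw [Metric.tendsto_nhds] at hgt
  filter_upwards [hgt (ε / 4) (by linarith)] with i hi
  rw [Real.dist_eq] at hi ⊢
  have hfin := orbit_finite hP (x i)
  have h1 : |mean F (x i) (fun z => f fun j => pt j (z j)) - mean F (x i) (fun z => g fun j => pt j (z j))| ≤
      ε / 4 := by
    have e : mean F (x i) (fun z => f fun j => pt j (z j)) =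
        mean F (x i) (fun z => (f fun j => pt j (z j)) - g fun j => pt j (z j)) +
          mean F (x i) (fun z => g fun j => pt j (z j)) := by
      rw [← mean_add hfin]
      congr 1
      funext z
      ring
    rw [e, add_sub_cancel_right]
    exact abs_mean_le_of_le hfin fun z _ => hfg _
  have h2 : |∫ y, g y ∂Measure.pi m - ∫ y, f y ∂Measure.pi m| ≤ ε / 4 := by
    rw [← integral_sub hgi hfi]
    have := norm_integral_le_of_norm_le_const (μ := Measure.pi m) (f := fun y => g y - f y) (C := ε / 4)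
      (Eventually.of_forall fun y => by rw [Real.norm_eq_abs, abs_sub_comm]; exact hfg y)
    rw [Real.norm_eq_abs] at this
    simpa using this
  have h3 := abs_sub_le (mean F (x i) (fun z => f fun j => pt j (z j)))
    (mean F (x i) (fun z => g fun j => pt j (z j))) (∫ y, f y ∂Measure.pi m)
  have h4 := abs_sub_le (mean F (x i) (fun z => g fun j => pt j (z j))) (∫ y, g y ∂Measure.pi m)
    (∫ y, f y ∂Measure.pi m)
  linarith

theorem joint [∀ j, LocallyCompactSpace (Y j)] [∀ j, T2Space (Y j)]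
    [∀ j, SecondCountableTopology (Y j)] [∀ j, BorelSpace (Y j)] [∀ j, IsProbabilityMeasure (m j)]
    (hF : F.index ≠ 0) (hP : ∀ j, CMPoints F (pt j) (K j) (H j) (R j) (D j) (m j) b η) {η' : ℝ} (hη : η' < η)
    (x : ℕ → ∀ j, P j) (hx : ∀ j (y : P j), {i | x i j = y}.Finite)
    (hS : ∀ S : Finset J, S.Nonempty → ∀ᶠ i in atTop, ∃ j ∈ S,
      Apart (fun k => K k (x i k)) (fun k => H k (x i k)) (fun k => D k (x i k)) S j η') :
    Equidistributed F pt m x := by
  have hF' : F.normalCore.index ≠ 0 := by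
    have : F.FiniteIndex := ⟨hF⟩
    exact Subgroup.FiniteIndex.index_ne_zero
  exact equidistributed_of_prod hP x fun φ hφ => tends_prod hP x φ fun S h0 =>
    tends_zero hF' hP hη x hx φ hφ S (hS S h0)

/-- different CM fields -/
theorem apart_of_ne {K H : J → Subgroup Γ} {D : J → ℕ} {S : Finset J} {j : J} {η' : ℝ} (hη' : 0 ≤ η')
    (h : ∀ k ∈ S, K k = K j → k = j) (hD : 0 < D j) : Apart K H D S j η' := by
  unfold Apart
  have h1 : others K H S j = K j := by
    unfold others
    refine inf_eq_left.2 (le_iInf fun k => le_iInf fun hk => ?_)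
    exact absurd (h k hk.1.1 hk.2) hk.1.2
  have h2 : (others K H S j ⊔ H j).relIndex (K j) = 1 := by
    rw [h1]
    exact Subgroup.relIndex_eq_one.2 le_sup_left
  rw [h2, Nat.cast_one]
  exact Real.one_le_rpow (by exact_mod_cast hD) hη'

end Pool.Agent.J6H24.EQ
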