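import Pool.Agent.J6H24.EQ.Eq

/-!
# Coordinates with a common CM field
-/

set_option autoImplicit false
set_option linter.unusedSectionVars false

namespace Pool.Agent.J6H24.EQ

open MulAction MeasureTheory Filter Topology

variable {Γ : Type} [Group Γ] (F : Subgroup Γ) {J : Type} {P Y : J → Type}
  [∀ j, MulAction F (P j)] [∀ j, TopologicalSpace (Y j)] [∀ j, MeasurableSpace (Y j)]
  (pt : ∀ j, P j → Y j) (K H : ∀ j, P j → Subgroup Γ) (D : ∀ j, P j → ℕ) (m : ∀ j, Measure (Y j))

/-- The group of the elements of `F` which are trivial on the CM field of the point `x j` and on the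
fields which belong to the points `x k`, `k ∈ T`. -/
def relGroup (x : ∀ j, P j) (T : Finset J) (j : J) : Subgroup Γ :=
  F ⊓ K j (x j) ⊓ ⨅ k, ⨅ _ : k ∈ T, H k (x k)

/-- The degree of the field of the point `x j` over the compositum of the base field, the CM field and
the fields of the points `x k`, `k ∈ T`. -/
noncomputable def degree (x : ∀ j, P j) (T : Finset J) (j : J) : ℕ :=
  (H j (x j)).relIndex (relGroup F K H x T j ⊔ H j (x j))

/-- The equidistribution of the fibres, on average: if the degree of the field of `x j` over the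
compositum of the fields of points `x k`, `k ∈ T`, with the same CM field is large, then for most of
the conjugates `z` of `x j` the mean of a function over the conjugates of `z` over the compositum is
close to the integral. -/
def Fibres : Prop :=
  ∀ (j : J) (φ : Y j → ℝ), Continuous φ → HasCompactSupport φ → ∀ ε : ℝ, 0 < ε →
    ∃ B : ℕ, ∀ (x : ∀ k, P k) (T : Finset J), j ∉ T → (∀ k ∈ T, K k (x k) = K j (x j)) →
      B ≤ D j (x j) → B ≤ degree F K H x T j →
        mean F (x j) (fun z => |mean ((relGroup F K H x T j).subgroupOf F) z (fun t => φ (pt j t)) -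
          ∫ t, φ t ∂m j|) ≤ ε

variable {F pt K H D m} {R : ∀ j, P j → Subgroup Γ} {b : ℕ} {η : ℝ} [Fintype J] [DecidableEq J]

/-- the estimate at a point of the product, on average -/
theorem key_mean (hP : ∀ j, CMPoints F (pt j) (K j) (H j) (R j) (D j) (m j) b η) (x : ∀ j, P j) (S : Finset J)
    (j : J) (hj : j ∈ S) (a : ∀ j, Y j → ℝ) {C : ℝ} (hC : ∀ k t, |a k t| ≤ C) :
    |mean F x (fun z => ∏ k ∈ S, a k (pt k (z k)))| ≤ C ^ (S.erase j).card *
      mean F (x j) (fun y => |mean ((relGroup F K H x (S.erase j) j).subgroupOf F) y (fun t => a j (pt j t))|) := by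
  set V := (relGroup F K H x (S.erase j) j).subgroupOf F with hV
  have hfin := orbit_finite hP x
  rw [← mean_tower V hfin]
  refine (abs_mean_le hfin _).trans ?_
  have hstep : ∀ z ∈ orbit F x, |mean V z (fun w => ∏ k ∈ S, a k (pt k (w k)))| ≤
      C ^ (S.erase j).card * |mean V (z j) (fun t => a j (pt j t))| := by
    intro z hz
    have hzf : (orbit V z).Finite := by
      refine (orbit_finite hP z).subset ?_
      rintro _ ⟨v, rfl⟩
      exact ⟨(v : F), rfl⟩
    have hH : ∀ k, H k (z k) = H k (x k) := by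
      obtain ⟨g, rfl⟩ := hz
      intro k
      exact ((hP k).conj g (x k)).2.1
    have hfix : ∀ w ∈ orbit V z, ∀ k ∈ S.erase j, w k = z k := by
      rintro _ ⟨v, rfl⟩ k hk
      refine (hP k).fixed (z k) (v : F) ?_
      rw [hH]
      have hv : ((v : F) : Γ) ∈ relGroup F K H x (S.erase j) j := Subgroup.mem_subgroupOf.1 v.2
      have := (Subgroup.mem_inf.1 hv).2
      rw [Subgroup.mem_iInf] at this
      have := this k
      rw [Subgroup.mem_iInf] at this
      exact this hk
    have e1 : mean V z (fun w => ∏ k ∈ S, a k (pt k (w k))) =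
        mean V z (fun w => (∏ k ∈ S.erase j, a k (pt k (z k))) * a j (pt j (w j))) := by
      refine mean_congr fun w hw => ?_
      show ∏ k ∈ S, a k (pt k (w k)) = _
      rw [← Finset.mul_prod_erase S _ hj, mul_comm]
      congr 1
      exact Finset.prod_congr rfl fun k hk => by rw [hfix w hw k hk]
    rw [e1, mean_mul hzf (∏ k ∈ S.erase j, a k (pt k (z k))) (fun w => a j (pt j (w j))), abs_mul]
    have e2 : mean V z (fun w => a j (pt j (w j))) = mean V (z j) (fun t => a j (pt j t)) :=
      mean_map hzf (fun w : ∀ j, P j => w j) (fun _ _ => rfl) (fun t => a j (pt j t))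
    rw [e2]
    have e3 : |∏ k ∈ S.erase j, a k (pt k (z k))| ≤ C ^ (S.erase j).card := by
      rw [Finset.abs_prod, ← Finset.prod_const]
      exact Finset.prod_le_prod (fun k _ => abs_nonneg _) fun k _ => hC k _
    exact mul_le_mul_of_nonneg_right e3 (abs_nonneg _)
  refine (mean_le hfin hstep).trans ?_
  rw [mean_mul hfin (C ^ (S.erase j).card) (fun z => |mean V (z j) (fun t => a j (pt j t))|)]
  have e4 : mean F x (fun z => |mean V (z j) (fun t => a j (pt j t))|) =
      mean F (x j) (fun y => |mean V y (fun t => a j (pt j t))|) :=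
    mean_map hfin (fun w : ∀ j, P j => w j) (fun _ _ => rfl) (fun y => |mean V y (fun t => a j (pt j t))|)
  rw [e4]

theorem tends_zero_fib (hF : F.normalCore.index ≠ 0)
    (hP : ∀ j, CMPoints F (pt j) (K j) (H j) (R j) (D j) (m j) b η) (hη : 0 < η) (hB : Fibres F pt K H D m)
    (x : ℕ → ∀ j, P j) (hx : ∀ j (y : P j), {i | x i j = y}.Finite) (φ : ∀ j, Y j → ℝ)
    (hφ : ∀ j, Continuous (φ j) ∧ HasCompactSupport (φ j)) (S : Finset J)
    (hS : ∀ B : ℕ, ∀ᶠ i in atTop, ∃ j ∈ S, (∀ k ∈ S, K k (x i k) = K j (x i j) → k = j) ∨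
      ((∀ k ∈ S, K k (x i k) = K j (x i j)) ∧ B ≤ degree F K H (x i) (S.erase j) j)) :
    Tendsto (fun i => mean F (x i) (fun z => ∏ k ∈ S, (φ k (pt k (z k)) - ∫ t, φ k t ∂m k))) atTop (𝓝 0) := by
  have hb : ∀ k, ∃ C : ℝ, ∀ t, |φ k t - ∫ t, φ k t ∂m k| ≤ C := by
    intro k
    obtain ⟨C, hC⟩ := (hφ k).2.exists_bound_of_continuous (hφ k).1
    refine ⟨C + |∫ t, φ k t ∂m k|, fun t => (abs_sub _ _).trans ?_⟩
    have := hC t
    rw [Real.norm_eq_abs] at this
    linarith
  choose C hC using hb
  obtain ⟨C', hC1, hC2⟩ : ∃ C' : ℝ, 1 ≤ C' ∧ ∀ k t, |φ k t - ∫ t, φ k t ∂m k| ≤ C' := by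
    refine ⟨1 + ∑ k, |C k|, ?_, fun k t => ?_⟩
    · have : 0 ≤ ∑ k, |C k| := Finset.sum_nonneg fun k _ => abs_nonneg _
      linarith
    · have h1 : |C k| ≤ ∑ k, |C k| := Finset.single_le_sum (f := fun k => |C k|) (fun k _ => abs_nonneg _) (Finset.mem_univ k)
      have h2 := hC k t
      have h3 := le_abs_self (C k)
      linarith
  rw [Metric.tendsto_nhds]
  intro ε hε
  have hε' : 0 < ε / (2 * C' ^ Fintype.card J) := by positivity
  have h1 := fun j => (hP j).equidistribution (φ j) (hφ j).1 (hφ j).2 _ hε'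
  choose D1 hD1 using h1
  have h2 := fun j => index_small hF hP (half_lt_self hη) j
  choose D2 hD2 using h2
  have h3 := fun j => hB j (φ j) (hφ j).1 (hφ j).2 _ hε'
  choose B3 hB3 using h3
  have h4 : ∀ᶠ i in atTop, ∀ j, max (max (D1 j) (D2 j)) (B3 j) < D j (x i j) :=
    eventually_all.2 fun j => large hP x hx _ j
  filter_upwards [h4, hS (∑ j, B3 j)] with i hi hSi
  obtain ⟨j, hj, hA⟩ := hSi
  have hi' := hi j
  have hi1 : D2 j < D j (x i j) := lt_of_le_of_lt ((le_max_right _ _).trans (le_max_left _ _)) hi'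
  have hi2 : D1 j ≤ D j (x i j) := ((le_max_left _ _).trans (le_max_left _ _)).trans hi'.le
  have hi3 : B3 j ≤ D j (x i j) := (le_max_right _ _).trans hi'.le
  have h5 := key_mean hP (x i) S j hj (fun k t => φ k t - ∫ t, φ k t ∂m k) hC2
  set V := relGroup F K H (x i) (S.erase j) j with hV
  have hsub : ∀ y ∈ orbit F (x i j), mean (V.subgroupOf F) y (fun t => φ j (pt j t) - ∫ t, φ j t ∂m j) =
      mean (V.subgroupOf F) y (fun t => φ j (pt j t)) - ∫ t, φ j t ∂m j := by
    intro y _
    have hyf : (orbit (V.subgroupOf F) y).Finite := by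
      refine (orbit_finite_one hP j y).subset ?_
      rintro _ ⟨v, rfl⟩
      exact ⟨(v : F), rfl⟩
    have := mean_add hyf (fun t => φ j (pt j t)) (fun _ => - ∫ t, φ j t ∂m j)
    rw [mean_const hyf] at this
    simpa only [sub_eq_add_neg] using this
  have h6 : mean F (x i j) (fun y => |mean (V.subgroupOf F) y (fun t => φ j (pt j t) - ∫ t, φ j t ∂m j)|) ≤
      ε / (2 * C' ^ Fintype.card J) := by
    rw [mean_congr (ψ := fun y => |mean (V.subgroupOf F) y (fun t => φ j (pt j t)) - ∫ t, φ j t ∂m j|)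
      fun y hy => by rw [hsub y hy]]
    rcases hA with hA | hA
    · have hap : Apart (fun k => K k (x i k)) (fun k => H k (x i k)) (fun k => D k (x i k)) S j (η / 2) :=
        apart_of_ne (by linarith) hA (by omega)
      have h7 := hD2 j (x i) hi1 S hap
      refine (le_abs_self _).trans (abs_mean_le_of_le (orbit_finite_one hP j _) fun y hy => ?_)
      rw [abs_abs]
      have hKHD : K j y = K j (x i j) ∧ H j y = H j (x i j) ∧ D j y = D j (x i j) := by
        obtain ⟨g, rfl⟩ := hy
        exact (hP j).conj g (x i j)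
      exact hD1 j y (by rw [hKHD.2.2]; exact hi2) V
        (by
          have : V ≤ F ⊓ K j (x i j) := inf_le_left
          rw [hKHD.1]; exact this)
        (by rw [hKHD.1, hKHD.2.1, hKHD.2.2]; exact h7)
    · refine hB3 j (x i) (S.erase j) (Finset.notMem_erase _ _)
        (fun k hk => hA.1 k (Finset.mem_of_mem_erase hk)) hi3 (le_trans ?_ hA.2)
      exact Finset.single_le_sum (f := B3) (fun k _ => Nat.zero_le _) (Finset.mem_univ j)
  rw [Real.dist_eq, sub_zero]
  refine lt_of_le_of_lt (h5.trans (mul_le_mul_of_nonneg_left h6 (by positivity))) ?_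
  have h8 : C' ^ (S.erase j).card ≤ C' ^ Fintype.card J := pow_le_pow_right₀ hC1 (Finset.card_le_univ _)
  have h9 : 0 < C' ^ Fintype.card J := by positivity
  calc C' ^ (S.erase j).card * (ε / (2 * C' ^ Fintype.card J))
      ≤ C' ^ Fintype.card J * (ε / (2 * C' ^ Fintype.card J)) := mul_le_mul_of_nonneg_right h8 hε'.le
    _ = ε / 2 := by field_simp
    _ < ε := by linarith

theorem joint_fib [∀ j, LocallyCompactSpace (Y j)] [∀ j, T2Space (Y j)]
    [∀ j, SecondCountableTopology (Y j)] [∀ j, BorelSpace (Y j)] [∀ j, IsProbabilityMeasure (m j)]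
    (hF : F.index ≠ 0) (hP : ∀ j, CMPoints F (pt j) (K j) (H j) (R j) (D j) (m j) b η) (hη : 0 < η)
    (hB : Fibres F pt K H D m) (x : ℕ → ∀ j, P j) (hx : ∀ j (y : P j), {i | x i j = y}.Finite)
    (hS : ∀ S : Finset J, 2 ≤ S.card → ∀ B : ℕ, ∀ᶠ i in atTop, ∃ j ∈ S,
      (∀ k ∈ S, K k (x i k) = K j (x i j) → k = j) ∨
      ((∀ k ∈ S, K k (x i k) = K j (x i j)) ∧ B ≤ degree F K H (x i) (S.erase j) j)) :
    Equidistributed F pt m x := by
  have hF' : F.normalCore.index ≠ 0 := by
    have : F.FiniteIndex := ⟨hF⟩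
    exact Subgroup.FiniteIndex.index_ne_zero
  refine equidistributed_of_prod hP x fun φ hφ => tends_prod hP x φ fun S h0 =>
    tends_zero_fib hF' hP hη hB x hx φ hφ S fun B => ?_
  by_cases h2 : 2 ≤ S.card
  · exact hS S h2 B
  · have h1 : S.card = 1 := by
      have := h0.card_pos
      omega
    obtain ⟨j, rfl⟩ := Finset.card_eq_one.1 h1
    exact Eventually.of_forall fun i => ⟨j, Finset.mem_singleton_self j, Or.inl fun k hk _ =>
      Finset.mem_singleton.1 hk⟩

end Pool.Agent.J6H24.EQ
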