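import Mathlib

/-!
# Autocorrelations on finite commutative groups
-/

set_option autoImplicit false
set_option linter.unusedSectionVars false

namespace Pool.Agent.J6H24.EQ

open ComplexConjugate

variable {α : Type} [AddCommGroup α] [Fintype α]

theorem parseval (g : α → ℂ) :
    ∑ ψ : AddChar α ℂ, ‖∑ s, g s * ψ s‖ ^ 2 = Fintype.card α * ∑ s, ‖g s‖ ^ 2 := by
  classical
  have h1 : ∀ ψ : AddChar α ℂ, ((‖∑ s, g s * ψ s‖ ^ 2 : ℝ) : ℂ) = ∑ s, ∑ t, g s * conj (g t) * ψ (s - t) := by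
    intro ψ
    rw [Complex.ofReal_pow, ← Complex.mul_conj', map_sum, Finset.sum_mul_sum]
    refine Finset.sum_congr rfl fun s _ => Finset.sum_congr rfl fun t _ => ?_
    rw [map_mul, sub_eq_add_neg, AddChar.map_add_eq_mul, AddChar.map_neg_eq_conj]
    ring
  have h2 : ((∑ ψ : AddChar α ℂ, ‖∑ s, g s * ψ s‖ ^ 2 : ℝ) : ℂ) =
      ((Fintype.card α * ∑ s, ‖g s‖ ^ 2 : ℝ) : ℂ) := by
    rw [Complex.ofReal_sum, Finset.sum_congr rfl fun ψ _ => h1 ψ, Finset.sum_comm]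
    push_cast
    rw [Finset.mul_sum]
    refine Finset.sum_congr rfl fun s _ => ?_
    rw [Finset.sum_comm, Finset.sum_congr rfl fun t _ => (Finset.mul_sum _ _ _).symm,
      Finset.sum_congr rfl fun t _ => by rw [AddChar.sum_apply_eq_ite], Finset.sum_eq_single s]
    · rw [sub_self, if_pos rfl, ← Complex.mul_conj']
      ring
    · intro t _ ht
      rw [if_neg (sub_ne_zero.2 (Ne.symm ht)), mul_zero]
    · intro h
      exact absurd (Finset.mem_univ s) h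
  exact_mod_cast h2

theorem auto (f : α → ℝ) {M : ℝ} (h : ∀ ψ : AddChar α ℂ, ‖∑ a, (f a : ℂ) * ψ a‖ ≤ M) :
    ∑ s, (∑ a, f a * f (s + a)) ^ 2 ≤ M ^ 2 * ∑ a, f a ^ 2 := by
  classical
  have hc : (0 : ℝ) < Fintype.card α := by exact_mod_cast Fintype.card_pos
  have h1 : ∀ ψ : AddChar α ℂ, ∑ s, ((∑ a, f a * f (s + a) : ℝ) : ℂ) * ψ s =
      conj (∑ a, (f a : ℂ) * ψ a) * ∑ a, (f a : ℂ) * ψ a := by
    intro ψ
    rw [map_sum, Finset.sum_mul_sum]
    have e1 : ∀ s, ((∑ a, f a * f (s + a) : ℝ) : ℂ) * ψ s = ∑ a, (f a : ℂ) * f (s + a) * ψ s := by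
      intro s
      push_cast
      rw [Finset.sum_mul]
    rw [Finset.sum_congr rfl fun s _ => e1 s, Finset.sum_comm]
    refine Finset.sum_congr rfl fun a _ => ?_
    refine Fintype.sum_equiv (Equiv.addRight a) _ _ fun s => ?_
    show (f a : ℂ) * f (s + a) * ψ s = conj ((f a : ℂ) * ψ a) * ((f (s + a) : ℂ) * ψ (s + a))
    rw [map_mul, Complex.conj_ofReal, AddChar.map_add_eq_mul, ← AddChar.map_neg_eq_conj]
    have e2 : ψ (-a) * ψ a = 1 := by
      rw [← AddChar.map_add_eq_mul, neg_add_cancel, AddChar.map_zero_eq_one]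
    calc (f a : ℂ) * f (s + a) * ψ s = (f a : ℂ) * f (s + a) * ψ s * (ψ (-a) * ψ a) := by rw [e2, mul_one]
      _ = _ := by ring
  have h2 := parseval (fun s => ((∑ a, f a * f (s + a) : ℝ) : ℂ))
  have h3 := parseval (fun s => (f s : ℂ))
  have h4 : ∑ ψ : AddChar α ℂ, ‖∑ s, ((∑ a, f a * f (s + a) : ℝ) : ℂ) * ψ s‖ ^ 2 ≤
      M ^ 2 * ∑ ψ : AddChar α ℂ, ‖∑ s, (f s : ℂ) * ψ s‖ ^ 2 := by
    rw [Finset.mul_sum]
    refine Finset.sum_le_sum fun ψ _ => ?_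
    rw [h1, norm_mul, RCLike.norm_conj, mul_pow]
    exact mul_le_mul_of_nonneg_right (pow_le_pow_left₀ (norm_nonneg _) (h ψ) 2) (by positivity)
  rw [h2, h3] at h4
  have h5 : ∀ r : ℝ, ‖(r : ℂ)‖ ^ 2 = r ^ 2 := fun r => by rw [Complex.norm_real, Real.norm_eq_abs, sq_abs]
  rw [Finset.sum_congr rfl fun s _ => h5 _, Finset.sum_congr rfl fun s _ => h5 (f s)] at h4
  have h6 : (Fintype.card α : ℝ) * ∑ s, (∑ a, f a * f (s + a)) ^ 2 ≤
      (Fintype.card α : ℝ) * (M ^ 2 * ∑ a, f a ^ 2) := by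
    calc _ ≤ _ := h4
      _ = _ := by ring
  exact le_of_mul_le_mul_left h6 hc

/-- the mean square of the autocorrelation -/
theorem auto_mean (f : α → ℝ) {ε C : ℝ} (hC : ∀ a, |f a| ≤ C)
    (h : ∀ ψ : AddChar α ℂ, ‖(∑ a, (f a : ℂ) * ψ a) / Fintype.card α‖ ≤ ε) :
    (∑ s, ((∑ a, f a * f (s + a)) / Fintype.card α) ^ 2) / Fintype.card α ≤ ε ^ 2 * C ^ 2 := by
  have hc : (0 : ℝ) < Fintype.card α := by exact_mod_cast Fintype.card_pos
  have h1 := auto f (M := ε * Fintype.card α) (by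
    intro ψ
    have := h ψ
    rw [norm_div, Complex.norm_natCast, div_le_iff₀ hc] at this
    exact this)
  have h2 : ∑ a, f a ^ 2 ≤ Fintype.card α * C ^ 2 := by
    calc ∑ a, f a ^ 2 ≤ ∑ _a : α, C ^ 2 := Finset.sum_le_sum fun a _ => by
          rw [← sq_abs]
          exact pow_le_pow_left₀ (abs_nonneg _) (hC a) 2
      _ = Fintype.card α * C ^ 2 := by rw [Finset.sum_const, nsmul_eq_mul, Finset.card_univ]
  have h3 : ∑ s, ((∑ a, f a * f (s + a)) / Fintype.card α) ^ 2 =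
      (∑ s, (∑ a, f a * f (s + a)) ^ 2) / (Fintype.card α : ℝ) ^ 2 := by
    rw [Finset.sum_div]
    exact Finset.sum_congr rfl fun s _ => by rw [div_pow]
  rw [h3, div_div, div_le_iff₀ (by positivity)]
  calc ∑ s, (∑ a, f a * f (s + a)) ^ 2 ≤ (ε * Fintype.card α) ^ 2 * ∑ a, f a ^ 2 := h1
    _ ≤ (ε * Fintype.card α) ^ 2 * (Fintype.card α * C ^ 2) := mul_le_mul_of_nonneg_left h2 (by positivity)
    _ = ε ^ 2 * C ^ 2 * ((Fintype.card α : ℝ) ^ 2 * Fintype.card α) := by ring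

end Pool.Agent.J6H24.EQ
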