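import Mathlib

/-!
# The group theory of composita of ring class fields
-/

set_option autoImplicit false
set_option linter.unusedSectionVars false

namespace Pool.Agent.J6H24.EQ

open Subgroup

variable {Γ : Type} [Group Γ]

/-- the composition of the maps `a ↦ τ a τ⁻¹ a` -/
def Psi : List Γ → Γ → Γ
  | [], a => a
  | τ :: l, a => τ * Psi l a * τ⁻¹ * Psi l a

theorem Psi_mem {M : Subgroup Γ} [hM : M.Normal] (l : List Γ) {a : Γ} (ha : a ∈ M) : Psi l a ∈ M := by
  induction l with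
  | nil => exact ha
  | cons τ l ih => exact M.mul_mem (hM.conj_mem _ ih τ) ih

theorem Psi_R {K N R : Subgroup Γ} [N.Normal] [hR : R.Normal] (hN : N ≤ K) {τ : Γ}
    (hτ : τ ∉ K) (inv : ∀ a ∈ K, ∀ τ ∉ K, τ * a * τ⁻¹ * a ∈ R) (l : List Γ) (hl : τ ∈ l) {a : Γ} (ha : a ∈ N) :
    Psi l a ∈ R := by
  induction l with
  | nil => simp at hl
  | cons σ l ih =>
    rcases List.mem_cons.1 hl with h | h
    · subst h
      exact inv _ (hN (Psi_mem l ha)) _ hτ
    · exact R.mul_mem (hR.conj_mem _ (ih h) σ) (ih h)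

/-- modulo a normal subgroup `H` such that `K / H` is abelian -/
theorem comm_mk {K H : Subgroup Γ} [H.Normal] (ab : ∀ a ∈ K, ∀ b ∈ K, a * b * a⁻¹ * b⁻¹ ∈ H) {a b : Γ} (ha : a ∈ K)
    (hb : b ∈ K) : (QuotientGroup.mk' H a) * (QuotientGroup.mk' H b) =
      (QuotientGroup.mk' H b) * (QuotientGroup.mk' H a) := by
  have h : QuotientGroup.mk' H (a * b * a⁻¹ * b⁻¹) = 1 := by
    rw [QuotientGroup.mk'_apply, QuotientGroup.eq_one_iff]
    exact ab a ha b hb
  rw [map_mul, map_mul, map_mul, map_inv, map_inv, mul_inv_eq_one, mul_inv_eq_iff_eq_mul] at h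
  exact h

theorem Psi_mul {K H : Subgroup Γ} [H.Normal] [hK : K.Normal] (ab : ∀ a ∈ K, ∀ b ∈ K, a * b * a⁻¹ * b⁻¹ ∈ H)
    (l : List Γ) {a b : Γ} (ha : a ∈ K) (hb : b ∈ K) :
    QuotientGroup.mk' H (Psi l (a * b)) = QuotientGroup.mk' H (Psi l a) * QuotientGroup.mk' H (Psi l b) := by
  induction l with
  | nil => rw [Psi, Psi, Psi, map_mul]
  | cons τ l ih =>
    have h1 := Psi_mem (M := K) l ha
    have h2 := Psi_mem (M := K) l hb
    have h3 := hK.conj_mem _ h1 τ
    have h4 := hK.conj_mem _ h2 τ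
    have hc := comm_mk ab h1 h4
    simp only [map_mul, map_inv, QuotientGroup.mk'_apply] at hc ih ⊢
    simp only [Psi, QuotientGroup.mk_mul, QuotientGroup.mk_inv] at hc ih ⊢
    rw [ih]
    set t := (QuotientGroup.mk τ : Γ ⧸ H)
    set x := (QuotientGroup.mk (Psi l a) : Γ ⧸ H)
    set y := (QuotientGroup.mk (Psi l b) : Γ ⧸ H)
    calc t * (x * y) * t⁻¹ * (x * y) = t * x * t⁻¹ * ((t * y * t⁻¹) * x) * y := by group
      _ = t * x * t⁻¹ * (x * (t * y * t⁻¹)) * y := by rw [hc]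
      _ = t * x * t⁻¹ * x * (t * y * t⁻¹ * y) := by group

theorem Psi_pow {K H : Subgroup Γ} [H.Normal] [hK : K.Normal] (ab : ∀ a ∈ K, ∀ b ∈ K, a * b * a⁻¹ * b⁻¹ ∈ H)
    (l : List Γ) (hl : ∀ τ ∈ l, τ ∈ K) {a : Γ} (ha : a ∈ K) :
    QuotientGroup.mk' H (Psi l a) = QuotientGroup.mk' H a ^ 2 ^ l.length := by
  induction l with
  | nil => simp [Psi]
  | cons τ l ih =>
    have h0 := ih fun σ hσ => hl σ (List.mem_cons_of_mem _ hσ)
    have h1 := Psi_mem (M := K) l ha
    have hc := comm_mk ab (hl τ List.mem_cons_self) h1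
    rw [Psi, map_mul, map_mul, map_mul, map_inv, hc, mul_inv_cancel_right, h0, List.length_cons, pow_succ, pow_mul,
      sq]

theorem relIndex_map_le {G : Type} [Group G] (f : Γ →* G) {A B : Subgroup Γ} (hAB : A ≤ B)
    (h0 : A.relIndex B ≠ 0) : (A.map f).relIndex (B.map f) ≤ A.relIndex B := by
  have h1 : (A.subgroupOf B).map (f.comp B.subtype) = A.map f := by
    rw [← Subgroup.map_map, Subgroup.map_subgroupOf_eq_of_le hAB]
  have h2 : (⊤ : Subgroup B).map (f.comp B.subtype) = B.map f := by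
    rw [← Subgroup.map_map, ← MonoidHom.range_eq_map, Subgroup.range_subtype]
  have h3 := Subgroup.relIndex_map_map (f.comp B.subtype) (A.subgroupOf B) ⊤
  rw [h1, h2, top_sup_eq, Subgroup.relIndex_top_right] at h3
  rw [h3]
  have : (A.subgroupOf B).FiniteIndex := ⟨h0⟩
  exact Subgroup.index_antitone le_sup_left

end Pool.Agent.J6H24.EQ
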