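import Pool.Agent.J6H24.EQ.Grp

/-!
# The index of the group which fixes the other coordinates
-/

set_option autoImplicit false
set_option linter.unusedSectionVars false

namespace Pool.Agent.J6H24.EQ

open Subgroup

variable {Γ : Type} [Group Γ]

theorem relIndex_mk {V K H : Subgroup Γ} [H.Normal] (hHK : H ≤ K) :
    (V.map (QuotientGroup.mk' H)).relIndex (K.map (QuotientGroup.mk' H)) = (V ⊔ H).relIndex K := by
  rw [Subgroup.relIndex_map_map, QuotientGroup.ker_mk', sup_eq_left.2 hHK]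

theorem finite_map {K H : Subgroup Γ} [H.Normal] (h0 : H.relIndex K ≠ 0) :
    Finite (K.map (QuotientGroup.mk' H)) := by
  have h := Subgroup.relIndex_ker (K := K) (QuotientGroup.mk' H)
  rw [QuotientGroup.ker_mk'] at h
  exact Nat.finite_of_card_ne_zero (by rw [← h]; exact h0)

theorem relIndex_ne {G : Type} [Group G] (A L : Subgroup G) [Finite L] : A.relIndex L ≠ 0 :=
  Subgroup.index_ne_zero_of_finite

theorem power_bound {K H V W : Subgroup Γ} [H.Normal] (hHK : H ≤ K) (h0 : H.relIndex K ≠ 0)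
    (ab : ∀ a ∈ K, ∀ b ∈ K, a * b * a⁻¹ * b⁻¹ ∈ H) (M : ℕ) (hW : W ≤ K)
    (h : ∀ a ∈ W, ∃ v ∈ V, QuotientGroup.mk' H v = QuotientGroup.mk' H a ^ M) :
    (V ⊔ H).relIndex K ≤
      (Subgroup.closure {g | ∃ a ∈ K, g = a ^ M} ⊔ H).relIndex K * (W ⊔ H).relIndex K := by
  classical
  set f := QuotientGroup.mk' H with hf
  have hfin : Finite (K.map f) := finite_map h0
  let g : K →* Γ ⧸ H := MonoidHom.mk' (fun a => f (a : Γ) ^ M) (by
    intro a b
    have hc : Commute (f (a : Γ)) (f (b : Γ)) := comm_mk ab a.2 b.2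
    show f ((a * b : K) : Γ) ^ M = f (a : Γ) ^ M * f (b : Γ) ^ M
    rw [← hc.mul_pow]
    congr 1)
  have hg : ∀ a : K, g a = f (a : Γ) ^ M := fun a => rfl
  have hgr : g.range ≤ K.map f := by
    rintro _ ⟨a, rfl⟩
    exact Subgroup.pow_mem _ (Subgroup.mem_map_of_mem _ a.2) _
  have h1 : ((W.subgroupOf K).map g) ≤ V.map f := by
    rintro _ ⟨a, ha, rfl⟩
    obtain ⟨v, hv, hva⟩ := h (a : Γ) ha
    exact ⟨v, hv, hva.trans (hg a).symm⟩
  have h2 : (V ⊔ H).relIndex K ≤ ((W.subgroupOf K).map g).relIndex (K.map f) := by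
    rw [← relIndex_mk hHK]
    exact Subgroup.relIndex_le_of_le_left h1 (relIndex_ne _ _)
  have hWr : (W.subgroupOf K).map g ≤ g.range := by
    rintro _ ⟨a, _, rfl⟩
    exact ⟨a, rfl⟩
  have h3 := Subgroup.relIndex_mul_relIndex _ _ _ hWr hgr
  have h4 : ((W.subgroupOf K).map g).relIndex g.range ≤ (W ⊔ H).relIndex K := by
    have e := Subgroup.relIndex_map_map g (W.subgroupOf K) ⊤
    rw [← MonoidHom.range_eq_map, top_sup_eq, Subgroup.relIndex_top_right] at e
    rw [e]
    have e2 : (W ⊔ H).relIndex K = (W.subgroupOf K ⊔ H.subgroupOf K).index := by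
      rw [Subgroup.relIndex, Subgroup.subgroupOf_sup hW hHK]
    rw [e2]
    have hle : W.subgroupOf K ⊔ H.subgroupOf K ≤ W.subgroupOf K ⊔ g.ker := by
      refine sup_le_sup_left ?_ _
      intro a ha
      have : f (a : Γ) = 1 := (QuotientGroup.eq_one_iff _).2 ha
      rw [MonoidHom.mem_ker, hg, this, one_pow]
    have hfi : (W.subgroupOf K ⊔ H.subgroupOf K).FiniteIndex := by
      have : (H.subgroupOf K).FiniteIndex := ⟨h0⟩
      exact Subgroup.finiteIndex_of_le (H := H.subgroupOf K) le_sup_right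
    exact Subgroup.index_antitone hle
  have h5 : g.range.relIndex (K.map f) ≤ (Subgroup.closure {g | ∃ a ∈ K, g = a ^ M} ⊔ H).relIndex K := by
    rw [← relIndex_mk hHK]
    refine Subgroup.relIndex_le_of_le_left ?_ (relIndex_ne _ _)
    rw [MonoidHom.map_closure, Subgroup.closure_le]
    rintro _ ⟨_, ⟨a, ha, rfl⟩, rfl⟩
    refine ⟨⟨a, ha⟩, ?_⟩
    rw [hg, map_pow]
  calc (V ⊔ H).relIndex K ≤ _ := h2
    _ = _ := h3.symm
    _ ≤ (W ⊔ H).relIndex K * (Subgroup.closure {g | ∃ a ∈ K, g = a ^ M} ⊔ H).relIndex K :=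
        Nat.mul_le_mul h4 h5
    _ = _ := mul_comm _ _

theorem inf_bound {K H N O : Subgroup Γ} [H.Normal] (hHK : H ≤ K) (h0 : H.relIndex K ≠ 0) (hO : O ≤ K)
    (hN : N.index ≠ 0) : ((N ⊓ O) ⊔ H).relIndex K ≤ N.index * (O ⊔ H).relIndex K := by
  have hfin : Finite (K.map (QuotientGroup.mk' H)) := finite_map h0
  rw [← relIndex_mk hHK, ← relIndex_mk hHK,
    ← Subgroup.relIndex_mul_relIndex _ _ _ (Subgroup.map_mono (f := QuotientGroup.mk' H) (inf_le_right : N ⊓ O ≤ O))
      (Subgroup.map_mono hO)]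
  refine Nat.mul_le_mul_right _ ?_
  have h1 : (N ⊓ O).relIndex O ≤ N.index := by
    rw [Subgroup.inf_relIndex_right]
    have := Subgroup.relIndex_le_of_le_right (H := N) (le_top : O ≤ ⊤) (by rwa [Subgroup.relIndex_top_right])
    rwa [Subgroup.relIndex_top_right] at this
  have h2 : (N ⊓ O).relIndex O ≠ 0 := by
    rw [Subgroup.inf_relIndex_right]
    intro h
    exact hN (Subgroup.index_eq_zero_of_relIndex_eq_zero h)
  exact (relIndex_map_le _ inf_le_right h2).trans h1

/-- two different subgroups of index two -/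
theorem exists_sep {A B : Subgroup Γ} (hA : A.index = 2) (hB : B.index = 2) (h : B ≠ A) :
    ∃ τ ∈ A, τ ∉ B := by
  by_contra hc
  push Not at hc
  have hle : A ≤ B := hc
  have h1 := Subgroup.relIndex_mul_index hle
  rw [hA, hB] at h1
  have h2 : A.relIndex B = 1 := by omega
  exact h (le_antisymm (Subgroup.relIndex_eq_one.1 h2) hle)

end Pool.Agent.J6H24.EQ
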