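import Pool.Agent.J6H24.EQ.Four
import Pool.Agent.J6H24.EQ.Mean

/-!
# Second moments over a product of orbits
-/

set_option autoImplicit false
set_option linter.unusedSectionVars false

namespace Pool.Agent.J6H24.EQ

open MulAction

/-- The function `ψ` is an eigenfunction of absolute value `1` of the group on the orbit of `y`: the
action of each element multiplies it by a constant. -/
def IsEigen (G : Type) [Group G] {P : Type} [MulAction G P] (y : P) (ψ : P → ℂ) : Prop :=
  (∀ z ∈ orbit G y, ‖ψ z‖ = 1) ∧ ∀ v : G, ∃ c : ℂ, ∀ z ∈ orbit G y, ψ (v • z) = c * ψ z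

/-- The Weyl sum: the mean of `ψ φ` over the orbit of `y`. -/
noncomputable def weylSum (G : Type) [Group G] {P : Type} [MulAction G P] (y : P) (ψ : P → ℂ)
    (φ : P → ℝ) : ℂ :=
  (∑ᶠ z ∈ orbit G y, ψ z * φ z) / (orbit G y).ncard

section finite

variable {Q : Type} [Group Q] [Fintype Q]

theorem mean_one (φ : Q → ℝ) : mean Q (1 : Q) φ = (∑ q, φ q) / Fintype.card Q := by
  classical
  have h : (orbit Q (1 : Q)).Finite := Set.toFinite _
  rw [mean_eq h]
  have e : h.toFinset = Finset.univ := by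
    ext q
    simp only [Set.Finite.mem_toFinset, Finset.mem_univ, iff_true]
    exact ⟨q, by simp⟩
  rw [e, Finset.card_univ]

theorem mean_group {X : Type} [MulAction Q X] (y : X) (φ : X → ℝ) :
    mean Q y φ = (∑ q : Q, φ (q • y)) / Fintype.card Q := by
  rw [← mean_one (fun q : Q => φ (q • y))]
  have h := mean_map (G := Q) (x := (1 : Q)) (Set.toFinite _) (fun q : Q => q • y)
    (fun g z => by simp [mul_smul]) φ
  rw [h, one_smul]

theorem auto_group (comm : ∀ a b : Q, a * b = b * a) (f : Q → ℝ) {ε C : ℝ} (hC : ∀ a, |f a| ≤ C)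
    (h : ∀ χ : Q → ℂ, (∀ a, ‖χ a‖ = 1) → (∀ a b, χ (a * b) = χ a * χ b) →
      ‖(∑ a, (f a : ℂ) * χ a) / Fintype.card Q‖ ≤ ε) :
    (∑ s, ((∑ a, f a * f (s * a)) / Fintype.card Q) ^ 2) / Fintype.card Q ≤ ε ^ 2 * C ^ 2 := by
  let _ : CommGroup Q := { (inferInstance : Group Q) with mul_comm := comm }
  have hc : Fintype.card (Additive Q) = Fintype.card Q := Fintype.card_congr Additive.toMul
  have h1 := auto_mean (α := Additive Q) (fun a => f a.toMul) (ε := ε) (C := C) (fun a => hC _) (by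
    intro ψ
    have h2 := h (fun a => ψ (Additive.ofMul a)) (fun a => ψ.norm_apply _) (fun a b => by
      rw [ofMul_mul, AddChar.map_add_eq_mul])
    rw [hc]
    have e : ∑ a : Additive Q, (f a.toMul : ℂ) * ψ a = ∑ a : Q, (f a : ℂ) * ψ (Additive.ofMul a) :=
      Fintype.sum_equiv Additive.toMul _ _ fun _ => rfl
    rw [e]
    exact h2)
  rw [hc] at h1
  have e1 : ∀ s : Additive Q, ∑ a : Additive Q, f a.toMul * f (s + a).toMul = ∑ a : Q, f a * f (s.toMul * a) :=
    fun s => Fintype.sum_equiv Additive.toMul _ _ fun _ => rfl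
  have e2 : ∑ s : Additive Q, ((∑ a : Additive Q, f a.toMul * f (s + a).toMul) / (Fintype.card Q : ℝ)) ^ 2 =
      ∑ s : Q, ((∑ a : Q, f a * f (s * a)) / (Fintype.card Q : ℝ)) ^ 2 :=
    Fintype.sum_equiv Additive.toMul _ _ fun s => by rw [e1]
  rw [e2] at h1
  exact h1

end finite

theorem weylSum_eq {G : Type} [Group G] {P : Type} [MulAction G P] {y : P} (h : (orbit G y).Finite)
    (ψ : P → ℂ) (φ : P → ℝ) :
    weylSum G y ψ φ = (mean G y (fun z => (ψ z).re * φ z) : ℂ) +
      (mean G y (fun z => (ψ z).im * φ z) : ℂ) * Complex.I := by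
  rw [mean_eq h, mean_eq h, weylSum, finsum_mem_eq_finite_toFinset_sum _ h, Set.ncard_eq_toFinset_card _ h]
  push_cast
  rw [div_mul_eq_mul_div, ← add_div, Finset.sum_mul, ← Finset.sum_add_distrib]
  congr 1
  refine Finset.sum_congr rfl fun z _ => ?_
  conv_lhs => rw [← Complex.re_add_im (ψ z)]
  ring

theorem weylSum_group {Q : Type} [Group Q] [Fintype Q] {X : Type} [MulAction Q X] (z : X) (ψ : X → ℂ)
    (φ : X → ℝ) : weylSum Q z ψ φ = (∑ q : Q, (φ (q • z) : ℂ) * ψ (q • z)) / Fintype.card Q := by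
  have hf : (orbit Q z).Finite := Set.finite_range _
  rw [weylSum_eq hf, mean_group, mean_group]
  push_cast
  rw [div_mul_eq_mul_div, ← add_div, Finset.sum_mul, ← Finset.sum_add_distrib]
  congr 1
  refine Finset.sum_congr rfl fun q _ => ?_
  conv_rhs => rw [← Complex.re_add_im (ψ (q • z))]
  ring

theorem char_bound {Q : Type} [Group Q] [Fintype Q] {X : Type} [MulAction Q X] (z : X) (φ : X → ℝ) {ε : ℝ}
    (hε : 0 ≤ ε) (hW : ∀ ψ : X → ℂ, IsEigen Q z ψ → ‖weylSum Q z ψ φ‖ ≤ ε) (χ : Q → ℂ)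
    (h1 : ∀ a, ‖χ a‖ = 1) (h2 : ∀ a b, χ (a * b) = χ a * χ b) :
    ‖(∑ q : Q, (φ (q • z) : ℂ) * χ q) / Fintype.card Q‖ ≤ ε := by
  classical
  by_cases hs : ∀ s : Q, s • z = z → χ s = 1
  · have hw : ∀ q q' : Q, q • z = q' • z → χ q = χ q' := by
      intro q q' h
      have e : (q'⁻¹ * q) • z = z := by rw [mul_smul, h, inv_smul_smul]
      have e2 := hs _ e
      have e3 : χ (q' * (q'⁻¹ * q)) = χ q' := by rw [h2, e2, mul_one]
      rw [mul_inv_cancel_left] at e3
      exact e3
    let ψ : X → ℂ := fun w => if h : ∃ q : Q, q • z = w then χ h.choose else 0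
    have hψ : ∀ q : Q, ψ (q • z) = χ q := by
      intro q
      have h : ∃ q' : Q, q' • z = q • z := ⟨q, rfl⟩
      show (if h : ∃ q' : Q, q' • z = q • z then χ h.choose else 0) = χ q
      rw [dif_pos h]
      exact hw _ _ h.choose_spec
    have he : IsEigen Q z ψ := by
      refine ⟨?_, fun v => ⟨χ v, ?_⟩⟩
      · rintro _ ⟨q, rfl⟩
        show ‖ψ (q • z)‖ = 1
        rw [hψ, h1]
      · rintro _ ⟨q, rfl⟩
        show ψ (v • q • z) = χ v * ψ (q • z)
        rw [← mul_smul, hψ, hψ, h2]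
    have := hW ψ he
    rw [weylSum_group] at this
    simpa only [hψ] using this
  · push Not at hs
    obtain ⟨s, hs1, hs2⟩ := hs
    have e : ∑ q : Q, (φ (q • z) : ℂ) * χ q = χ s * ∑ q : Q, (φ (q • z) : ℂ) * χ q := by
      rw [Finset.mul_sum]
      refine Fintype.sum_equiv (Equiv.mulRight s⁻¹) _ _ fun q => ?_
      show (φ (q • z) : ℂ) * χ q = χ s * ((φ ((q * s⁻¹) • z) : ℂ) * χ (q * s⁻¹))
      have e1 : (q * s⁻¹) • z = q • z := by
        rw [mul_smul]
        congr 1
        rw [inv_smul_eq_iff, hs1]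
      have e2 : χ (q * s⁻¹) * χ s = χ q := by rw [← h2, inv_mul_cancel_right]
      rw [e1, ← e2]
      ring
    have e0 : ∑ q : Q, (φ (q • z) : ℂ) * χ q = 0 := by
      have e3 : (1 - χ s) * ∑ q : Q, (φ (q • z) : ℂ) * χ q = 0 := by
        rw [sub_mul, one_mul, ← e, sub_self]
      rcases mul_eq_zero.1 e3 with h | h
      · exact absurd (sub_eq_zero.1 h).symm hs2
      · exact h
    rw [e0, zero_div, norm_zero]
    exact hε

section moment

variable {J : Type} [Fintype J] [DecidableEq J] {G : Type} [Group G] {X : J → Type} [∀ k, Fintype (X k)]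
  [∀ k, MulAction G (X k)]

/-- the permutations -/
def permHom (G : Type) [Group G] (X : J → Type) [∀ k, MulAction G (X k)] : G →* ∀ k, Equiv.Perm (X k) :=
  MonoidHom.pi fun k => toPermHom G (X k)

theorem orbit_perm (y : ∀ k, X k) : orbit G y = orbit (permHom G X).range y := by
  ext w
  constructor
  · rintro ⟨g, rfl⟩
    exact ⟨⟨permHom G X g, ⟨g, rfl⟩⟩, rfl⟩
  · rintro ⟨⟨_, ⟨g, rfl⟩⟩, rfl⟩
    exact ⟨g, rfl⟩

theorem mean_perm [∀ k, DecidableEq (X k)] [Fintype (permHom G X).range] (y : ∀ k, X k) (φ : (∀ k, X k) → ℝ) :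
    mean G y φ = (∑ q : (permHom G X).range, φ (q • y)) / Fintype.card (permHom G X).range := by
  rw [← mean_group]
  unfold mean
  rw [orbit_perm]

theorem sum_mean (φ : (∀ k, X k) → ℝ) : ∑ y : ∀ k, X k, mean G y φ = ∑ y, φ y := by
  classical
  let _ : Fintype (permHom G X).range := Fintype.ofFinite _
  have hn : (0 : ℝ) < Fintype.card (permHom G X).range := by
    have : 0 < Fintype.card (permHom G X).range := Fintype.card_pos
    exact Nat.cast_pos.2 this
  rw [Finset.sum_congr rfl fun y _ => mean_perm y φ, ← Finset.sum_div, Finset.sum_comm, div_eq_iff hn.ne',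
    Finset.sum_congr rfl fun (q : (permHom G X).range) _ =>
    (Fintype.sum_equiv (toPerm q) (fun y => φ (q • y)) φ fun y => rfl), Finset.sum_const, nsmul_eq_mul,
    Finset.card_univ, mul_comm]

variable (G X) in
/-- the action of the permutations on a coordinate -/
@[reducible] def act (k : J) : MulAction (permHom G X).range (X k) :=
  MulAction.compHom (X k) ((Pi.evalMonoidHom (fun k => Equiv.Perm (X k)) k).comp (permHom G X).range.subtype)

theorem auto_coord (comm : ∀ (v w : G) (k : J) (z : X k), v • w • z = w • v • z) [Fintype (permHom G X).range]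
    (j : J) (a : X j → ℝ) {C ε : ℝ} (hC : ∀ z, |a z| ≤ C) (hε : 0 ≤ ε)
    (hW : ∀ (z : X j) (ψ : X j → ℂ), IsEigen G z ψ → ‖weylSum G z ψ a‖ ≤ ε) :
    (∑ s : (permHom G X).range, ((∑ z, a z * a (s.1 j z)) / Fintype.card (X j)) ^ 2) /
      Fintype.card (permHom G X).range ≤ ε ^ 2 * C ^ 2 := by
  classical
  let _ : MulAction (permHom G X).range (X j) := act G X j
  have hact : ∀ (q : (permHom G X).range) (z : X j), q • z = q.1 j z := fun q z => rfl
  have hcomm : ∀ p q : (permHom G X).range, p * q = q * p := by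
    rintro ⟨_, ⟨v, rfl⟩⟩ ⟨_, ⟨w, rfl⟩⟩
    refine Subtype.ext (funext fun k => Equiv.ext fun z => ?_)
    exact comm v w k z
  have horb : ∀ z : X j, orbit (permHom G X).range z = orbit G z := by
    intro z
    ext w
    constructor
    · rintro ⟨⟨_, ⟨g, rfl⟩⟩, rfl⟩
      exact ⟨g, rfl⟩
    · rintro ⟨g, rfl⟩
      exact ⟨⟨permHom G X g, ⟨g, rfl⟩⟩, rfl⟩
  have hW' : ∀ (z : X j) (ψ : X j → ℂ), IsEigen (permHom G X).range z ψ →
      ‖weylSum (permHom G X).range z ψ a‖ ≤ ε := by
    intro z ψ hψ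
    have e : weylSum (permHom G X).range z ψ a = weylSum G z ψ a := by
      unfold weylSum
      rw [horb]
    rw [e]
    refine hW z ψ ⟨fun w hw => hψ.1 w (by rw [horb]; exact hw), fun v => ?_⟩
    obtain ⟨c, hc⟩ := hψ.2 ⟨permHom G X v, ⟨v, rfl⟩⟩
    exact ⟨c, fun w hw => hc w (by rw [horb]; exact hw)⟩
  set n := (Fintype.card (permHom G X).range : ℝ) with hn
  have hn0 : 0 < n := by
    have : 0 < Fintype.card (permHom G X).range := Fintype.card_pos
    rw [hn]
    exact Nat.cast_pos.2 this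
  have h1 : ∀ z : X j, (∑ s : (permHom G X).range, ((∑ q : (permHom G X).range,
      a (q • z) * a ((s * q) • z)) / n) ^ 2) / n ≤ ε ^ 2 * C ^ 2 := fun z =>
    auto_group hcomm (fun q => a (q • z)) (fun q => hC _)
      (fun χ h2 h3 => char_bound z a hε (hW' z) χ h2 h3)
  have h2 : ∀ g : X j → ℝ, ∑ z, g z = ∑ z, (∑ q : (permHom G X).range, g (q • z)) / n := by
    intro g
    rw [← Finset.sum_div, Finset.sum_comm, eq_div_iff hn0.ne']
    rw [Finset.sum_congr rfl fun (q : (permHom G X).range) _ =>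
      (Fintype.sum_equiv (q.1 j) (fun z => g (q • z)) g fun z => rfl), Finset.sum_const, nsmul_eq_mul,
      Finset.card_univ, mul_comm]
  have h3 : ∀ s : (permHom G X).range, ((∑ z, a z * a (s.1 j z)) / (Fintype.card (X j) : ℝ)) ^ 2 ≤
      (∑ z, ((∑ q : (permHom G X).range, a (q • z) * a ((s * q) • z)) / n) ^ 2) / Fintype.card (X j) := by
    intro s
    have e : ∑ z, a z * a (s.1 j z) =
        ∑ z, (∑ q : (permHom G X).range, a (q • z) * a ((s * q) • z)) / n := h2 _
    rw [e]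
    have h4 := sq_sum_le_card_mul_sum_sq (s := (Finset.univ : Finset (X j)))
      (f := fun z => (∑ q : (permHom G X).range, a (q • z) * a ((s * q) • z)) / n)
    rw [Finset.card_univ] at h4
    rcases (Nat.cast_nonneg (Fintype.card (X j)) : (0 : ℝ) ≤ _).eq_or_lt with h0 | h0
    · rw [← h0]; simp
    · rw [div_pow, div_le_div_iff₀ (by positivity) h0]
      calc _ ≤ ((Fintype.card (X j) : ℝ) * ∑ z, ((∑ q : (permHom G X).range,
            a (q • z) * a ((s * q) • z)) / n) ^ 2) * Fintype.card (X j) := mul_le_mul_of_nonneg_right h4 h0.le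
        _ = _ := by ring
  have h5 : ∑ s : (permHom G X).range, ((∑ z, a z * a (s.1 j z)) / (Fintype.card (X j) : ℝ)) ^ 2 ≤
      (∑ z, ∑ s : (permHom G X).range, ((∑ q : (permHom G X).range, a (q • z) * a ((s * q) • z)) / n) ^ 2) /
        Fintype.card (X j) := by
    refine (Finset.sum_le_sum fun s _ => h3 s).trans (le_of_eq ?_)
    rw [← Finset.sum_div, Finset.sum_comm]
  have h6 : ∑ z, ∑ s : (permHom G X).range, ((∑ q : (permHom G X).range, a (q • z) * a ((s * q) • z)) / n) ^ 2 ≤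
      Fintype.card (X j) * (ε ^ 2 * C ^ 2 * n) := by
    refine (Finset.sum_le_sum fun z _ => (div_le_iff₀ hn0).1 (h1 z)).trans (le_of_eq ?_)
    rw [Finset.sum_const, nsmul_eq_mul, Finset.card_univ]
  rw [div_le_iff₀ hn0]
  refine h5.trans ?_
  rcases (Nat.cast_nonneg (Fintype.card (X j)) : (0 : ℝ) ≤ _).eq_or_lt with h0 | h0
  · rw [← h0, div_zero]; positivity
  · rw [div_le_iff₀ h0]
    calc _ ≤ _ := h6
      _ = _ := by ring

theorem pair_bound (a : ∀ k, X k → ℝ) {C : ℝ} (hC : ∀ k z, |a k z| ≤ C) (S : Finset J) {j : J} (hj : j ∈ S)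
    (σ : ∀ k, Equiv.Perm (X k)) :
    |(∑ y : ∀ k, X k, (∏ k ∈ S, a k (y k)) * ∏ k ∈ S, a k (σ k (y k))) / Fintype.card (∀ k, X k)| ≤
      (C ^ 2) ^ (S.erase j).card * |(∑ z, a j z * a j (σ j z)) / Fintype.card (X j)| := by
  classical
  set b : ∀ k, X k → ℝ := fun k z => if k ∈ S then a k z * a k (σ k z) else 1 with hb
  have h1 : ∑ y : ∀ k, X k, (∏ k ∈ S, a k (y k)) * ∏ k ∈ S, a k (σ k (y k)) = ∏ k, ∑ z, b k z := by
    rw [Finset.prod_univ_sum, Fintype.piFinset_univ]
    refine Finset.sum_congr rfl fun y _ => ?_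
    rw [← Finset.prod_mul_distrib, hb]
    simp only [Finset.prod_ite_mem, Finset.univ_inter]
  have h2 : (∑ y : ∀ k, X k, (∏ k ∈ S, a k (y k)) * ∏ k ∈ S, a k (σ k (y k))) / (Fintype.card (∀ k, X k) : ℝ) =
      ∏ k, ((∑ z, b k z) / Fintype.card (X k)) := by
    rw [h1, Fintype.card_pi, Finset.prod_div_distrib]
    push_cast
    rfl
  rw [h2, ← Finset.mul_prod_erase Finset.univ _ (Finset.mem_univ j), abs_mul, mul_comm]
  have h3 : (∑ z, b j z) / (Fintype.card (X j) : ℝ) = (∑ z, a j z * a j (σ j z)) / Fintype.card (X j) := by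
    rw [hb]
    simp only [if_pos hj]
  rw [h3]
  refine mul_le_mul_of_nonneg_right ?_ (abs_nonneg _)
  have h4 : ∀ k, |(∑ z, b k z) / (Fintype.card (X k) : ℝ)| ≤ if k ∈ S then C ^ 2 else 1 := by
    intro k
    have h5 : ∀ z, |b k z| ≤ if k ∈ S then C ^ 2 else 1 := by
      intro z
      rw [hb]
      by_cases hk : k ∈ S
      · simp only [if_pos hk]
        rw [abs_mul, sq]
        exact mul_le_mul (hC k _) (hC k _) (abs_nonneg _) ((abs_nonneg _).trans (hC k z))
      · simp only [if_neg hk, abs_one, le_refl]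
    have h6 : |∑ z, b k z| ≤ Fintype.card (X k) * (if k ∈ S then C ^ 2 else 1) := by
      refine (Finset.abs_sum_le_sum_abs _ _).trans ((Finset.sum_le_sum fun z _ => h5 z).trans (le_of_eq ?_))
      rw [Finset.sum_const, nsmul_eq_mul, Finset.card_univ]
    rw [abs_div, Nat.abs_cast]
    rcases (Nat.cast_nonneg (Fintype.card (X k)) : (0 : ℝ) ≤ _).eq_or_lt with h0 | h0
    · rw [← h0, div_zero]
      split_ifs
      · positivity
      · exact zero_le_one
    · rw [div_le_iff₀ h0, mul_comm]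
      exact h6
  rw [Finset.abs_prod]
  refine (Finset.prod_le_prod (fun k _ => abs_nonneg _) fun k _ => h4 k).trans (le_of_eq ?_)
  rw [Finset.prod_ite_mem, Finset.prod_const]
  congr 2
  ext k
  simp only [Finset.mem_inter, Finset.mem_erase, Finset.mem_univ, and_true]

/-- the second moment of the means over the orbits -/
theorem second (comm : ∀ (v w : G) (k : J) (z : X k), v • w • z = w • v • z) (a : ∀ k, X k → ℝ) {C ε : ℝ}
    (hC0 : 0 ≤ C) (hC : ∀ k z, |a k z| ≤ C) (hε : 0 ≤ ε) (S : Finset J) {j : J} (hj : j ∈ S)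
    (hW : ∀ (z : X j) (ψ : X j → ℂ), IsEigen G z ψ → ‖weylSum G z ψ (a j)‖ ≤ ε) :
    (∑ y : ∀ k, X k, (mean G y fun w => ∏ k ∈ S, a k (w k)) ^ 2) / Fintype.card (∀ k, X k) ≤
      (C ^ 2) ^ (S.erase j).card * (ε * C) := by
  classical
  let _ : Fintype (permHom G X).range := Fintype.ofFinite _
  set n := (Fintype.card (permHom G X).range : ℝ) with hn
  have hn0 : 0 < n := by
    have : 0 < Fintype.card (permHom G X).range := Fintype.card_pos
    rw [hn]
    exact Nat.cast_pos.2 this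
  set Φ : (∀ k, X k) → ℝ := fun w => ∏ k ∈ S, a k (w k) with hΦ
  have h1 : ∀ y, mean G y Φ = (∑ q : (permHom G X).range, Φ (q • y)) / n := fun y => mean_perm y Φ
  have h2 : ∑ y, (mean G y Φ) ^ 2 = (∑ s : (permHom G X).range, ∑ y, Φ y * Φ (s • y)) / n := by
    have e1 : ∀ q : (permHom G X).range, ∑ y, ∑ q' : (permHom G X).range, Φ (q • y) * Φ (q' • y) =
        ∑ s : (permHom G X).range, ∑ y, Φ y * Φ (s • y) := by
      intro q
      rw [Finset.sum_comm]
      refine Fintype.sum_equiv (Equiv.mulRight q⁻¹) _ _ fun q' => ?_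
      refine Fintype.sum_equiv (toPerm q) _ _ fun y => ?_
      show Φ (q • y) * Φ (q' • y) = Φ (q • y) * Φ ((q' * q⁻¹) • q • y)
      rw [mul_smul, inv_smul_smul]
    have e2 : ∀ y, (mean G y Φ) ^ 2 =
        (∑ q : (permHom G X).range, ∑ q' : (permHom G X).range, Φ (q • y) * Φ (q' • y)) / (n * n) := by
      intro y
      rw [h1, sq, div_mul_div_comm, Finset.sum_mul_sum]
    rw [Finset.sum_congr rfl fun y _ => e2 y, ← Finset.sum_div, Finset.sum_comm,
      Finset.sum_congr rfl fun q _ => e1 q, Finset.sum_const, nsmul_eq_mul, Finset.card_univ, ← hn,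
      mul_div_mul_left _ _ hn0.ne']
  rw [h2, div_div, mul_comm n, ← div_div, Finset.sum_div]
  have h3 : ∑ s : (permHom G X).range, (∑ y, Φ y * Φ (s • y)) / (Fintype.card (∀ k, X k) : ℝ) ≤
      (C ^ 2) ^ (S.erase j).card *
        ∑ s : (permHom G X).range, |(∑ z, a j z * a j (s.1 j z)) / (Fintype.card (X j) : ℝ)| := by
    rw [Finset.mul_sum]
    exact Finset.sum_le_sum fun s _ => (le_abs_self _).trans (pair_bound a hC S hj s.1)
  rw [div_le_iff₀ hn0]
  refine h3.trans ?_
  rw [mul_assoc]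
  refine mul_le_mul_of_nonneg_left ?_ (by positivity)
  have h4 := auto_coord comm j (a j) (hC j) hε hW
  have h5 := sq_sum_le_card_mul_sum_sq (s := (Finset.univ : Finset (permHom G X).range))
    (f := fun s => |(∑ z, a j z * a j (s.1 j z)) / (Fintype.card (X j) : ℝ)|)
  simp only [sq_abs] at h5
  rw [Finset.card_univ, ← hn] at h5
  rw [div_le_iff₀ hn0] at h4
  refine abs_le_of_sq_le_sq' (h5.trans ?_) (by positivity) |>.2
  calc n * _ ≤ n * (ε ^ 2 * C ^ 2 * n) := mul_le_mul_of_nonneg_left h4 hn0.le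
    _ = (ε * C * n) ^ 2 := by ring

end moment

end Pool.Agent.J6H24.EQ
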